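import Pool.Agent.Lib.P187w.Val
import Pool.Agent.Lib.BNC.Core

/-!
# A lower bound for the best constant from bounds for the family (level `t0 = 0`)
-/

set_option autoImplicit false

open Complex Metric Set
open scoped ComplexConjugate
open Pool.Agent.P187f6b Pool.Agent.P187s Pool.Agent.P187w Pool.Agent.BNR Pool.Agent.BNC

namespace Pool.Agent.BVD

lemma XF_zero (a : ℝ) (x ζ : ℂ) : XF 0 a x ζ = LN x (gk a (fun _ => 1)) := by
  funext z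
  unfold XF
  simp

/-- The bound at all points with nonnegative imaginary part gives the bound for the family. -/
theorem Ph_lt {l R s2 : ℝ} (hl0 : 0 < l) (hl1 : l < 1) (hs2 : 0 ≤ s2)
    (H : ∀ e : ℂ, ‖e‖ = 1 → 0 ≤ e.im → ∀ a : ℝ, 0 ≤ a → a ≤ 1 - s2 → ∀ r : ℝ, 0 ≤ r → r ≤ R →
      ∃ B : ℝ, B < 1 / (1 + l) ∧ ∀ ζ : ℂ, ‖ζ‖ = 1 → r * nr (XF 0 a (l * e) ζ) r ≤ B)
    {x : ℂ} (hx : ‖x‖ = l) {a : ℝ} (ha0 : 0 ≤ a) (has : a ≤ 1 - s2) {r : ℝ} (hr0 : 0 ≤ r)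
    (hr : r ≤ R) : Ph x (gk a (fun _ => 1)) r < 1 / (1 + l) := by
  have hx1 : ‖x‖ < 1 := by rw [hx]; exact hl1
  have ha1 : a ≤ 1 := by linarith
  have hlC : (l : ℂ) ≠ 0 := by exact_mod_cast hl0.ne'
  have hen : ‖x / l‖ = 1 := by
    rw [norm_div, hx, Complex.norm_real, Real.norm_eq_abs, abs_of_pos hl0, div_self hl0.ne']
  have hxe : (l : ℂ) * (x / l) = x := by field_simp
  unfold Ph
  rcases le_total 0 (x / l).im with him | him
  · obtain ⟨B, hB, h⟩ := H (x / l) hen him a ha0 has r hr0 hr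
    have h1 := h 1 (by simp)
    rw [hxe, XF_zero] at h1
    exact lt_of_le_of_lt h1 hB
  · obtain ⟨B, hB, h⟩ := H (conj (x / l)) (by rw [Complex.norm_conj]; exact hen)
      (by rw [Complex.conj_im]; linarith) a ha0 has r hr0 hr
    have e : (l : ℂ) * conj (x / l) = conj x := by
      rw [map_div₀, Complex.conj_ofReal]; field_simp
    have h2 := h (conj 1) (by simp)
    rw [e, nr_XF_conj hx1 ha0 ha1 (by simp), XF_zero] at h2
    exact lt_of_le_of_lt h2 hB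

/-- The lower bound for the best constant. -/
theorem lower_of_bound {l R R' s2 : ℝ} (hl0 : 0 < l) (hl1 : l < 1) (hs2 : 0 ≤ s2) (hR0 : 0 ≤ R)
    (hRR : R ≤ R') (hR : R ≤ 1 / (1 + 2 * l))
    (H : ∀ e : ℂ, ‖e‖ = 1 → 0 ≤ e.im → ∀ a : ℝ, 0 ≤ a → a ≤ 1 - s2 → ∀ r : ℝ, 0 ≤ r → r ≤ R →
      ∃ B : ℝ, B < 1 / (1 + l) ∧ ∀ ζ : ℂ, ‖ζ‖ = 1 → r * nr (XF 0 a (l * e) ζ) r ≤ B)
    (hlev : LEV0 l R' s2)
    (hred : ∀ f ∈ FClass l, maj l f (BB l) = 1 →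
      ∃ (a : ℝ) (η ω : ℂ), 0 ≤ a ∧ a ≤ 1 ∧ ‖η‖ = 1 ∧ ‖ω‖ = 1 ∧
        (1 < maj l (GG l a η) (BB l) ∨ ∀ z : ℂ, ‖z‖ < 1 → f z = GG l a η (ω * z))) :
    R ≤ BB l := by
  have hρ1 : 1 / (1 + 2 * l) < 1 := by
    rw [div_lt_one (by linarith)]; linarith
  have hR1 : R < 1 := lt_of_le_of_lt hR hρ1
  have hll : 0 < 1 - l ^ 2 := by nlinarith
  have h4 : (1 - l ^ 2) * (1 / (1 + l)) = 1 - l := by
    rw [mul_one_div, div_eq_iff (by linarith)]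
    ring
  have hkh : kh 1 (fun _ => 0) = fun _ => (1 : ℂ) := by
    funext z
    unfold kh
    simp
  refine lower_of_family' hl0 hl1 hR0 hR (fun a ha0 ha1 η hη => ?_) hred
  have hx : ‖-((l : ℂ) * η)‖ = l := NormAux.norm_x hl0.le hη
  have hk := kh_Sc zero_le_one le_rfl NormAux.Sc_zero
  rw [maj_GG hl0 hl1 ha0 ha1 hη NormAux.Sc_zero hR0 hR1]
  rcases le_or_gt a (1 - s2) with h2 | h2
  · have h5 := mul_lt_mul_of_pos_left (Ph_lt hl0 hl1 hs2 H hx ha0 h2 hR0 le_rfl) hll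
    rw [hkh]
    linarith
  · have hg := gk_Sc ha0 ha1.le hk
    have h3 := hlev _ hx _ hg (1 - a) (by linarith) (by linarith)
      (by rw [gk_zero]; congr 1; ring) R hR0 hRR hR
    have h5 := mul_lt_mul_of_pos_left h3 hll
    linarith

end Pool.Agent.BVD
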