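/-!
# Grid of the slice `[0 / 1024, 26 / 1024]`: nodes and bounds (data)

`ev`: nodes `e` (units `1 / 1024`); `As`: nodes `a` (units `1 / 1024`); `b1`, `b2`: bounds at the two ends
(units `2 ^ (-20)`).
-/

set_option autoImplicit false

namespace Pool.Agent.BVD.S0

def ev0 : List (Int × Int) :=
  [(1024, 0), (479, 905), ((-568), 852), ((-1024), 0)]

def As0 : List Nat :=
  [0, 432, 600, 656, 672]

def b10 : List (List Nat) := [
  [740998, 740998, 740998, 740998],
  [1310180, 1310180, 1310180, 1310180],
  [1444819, 1444819, 1444819, 1444819],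
  [1469983, 1469983, 1469983, 1469983],
  [1474803, 1474803, 1474803, 1474803]]

def b20 : List (List Nat) := [
  [740725, 740724, 740725, 740725],
  [1291729, 1294074, 1296763, 1297403],
  [1426303, 1427091, 1427703, 1427630],
  [1451440, 1451927, 1452079, 1451834],
  [1456251, 1456681, 1456745, 1456467]]

def ev1 : List (Int × Int) :=
  [(1024, 0), (945, 394), (724, 724), (394, 945), (0, 1024), ((-394), 945), ((-724), 724),
   ((-945), 394), ((-1024), 0)]

def As1 : List Nat :=
  [672, 704, 720, 736, 752, 768]

def b11 : List (List Nat) := [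
  [1474803, 1474803, 1474803, 1474803, 1474803, 1474803, 1474803, 1474803, 1474803],
  [1480842, 1480842, 1480842, 1480842, 1480842, 1480842, 1480842, 1480842, 1480842],
  [1481903, 1481903, 1481903, 1481903, 1481903, 1481903, 1481903, 1481903, 1481903],
  [1481542, 1481542, 1481542, 1481542, 1481542, 1481542, 1481542, 1481542, 1481542],
  [1479660, 1479660, 1479660, 1479660, 1479660, 1479660, 1479660, 1479660, 1479660],
  [1476150, 1476150, 1476150, 1476150, 1476150, 1476150, 1476150, 1476150, 1476150]]

def b21 : List (List Nat) := [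
  [1456251, 1456331, 1456522, 1456723, 1456832, 1456802, 1456671, 1456529, 1456467],
  [1462271, 1462341, 1462505, 1462669, 1462739, 1462673, 1462514, 1462353, 1462286],
  [1463323, 1463391, 1463553, 1463715, 1463784, 1463717, 1463557, 1463395, 1463327],
  [1462951, 1463022, 1463191, 1463364, 1463445, 1463390, 1463239, 1463084, 1463017],
  [1461058, 1461135, 1461322, 1461520, 1461630, 1461603, 1461473, 1461330, 1461268],
  [1457536, 1457624, 1457840, 1458080, 1458238, 1458254, 1458159, 1458038, 1457984]]

def ev2 : List (Int × Int) :=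
  [(1024, 0), (684, 762), ((-45), 1023), ((-762), 684), ((-1024), 0)]

def As2 : List Nat :=
  [768, 808, 888, 984]

def b12 : List (List Nat) := [
  [1476150, 1476150, 1476150, 1476150, 1476150],
  [1459453, 1459453, 1459453, 1459453, 1459453],
  [1383880, 1383880, 1383880, 1383880, 1383880],
  [1184483, 1184483, 1184483, 1184483, 1184483]]

def b22 : List (List Nat) := [
  [1457536, 1457874, 1458247, 1458142, 1457984],
  [1440808, 1441356, 1442138, 1442385, 1442344],
  [1365158, 1366763, 1369554, 1371488, 1372002],
  [1165633, 1171611, 1180997, 1187468, 1189341]]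

end Pool.Agent.BVD.S0
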