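/-!
# Grid of the slice `[102 / 1024, 128 / 1024]`: nodes and bounds (data)

`ev`: nodes `e` (units `1 / 1024`); `As`: nodes `a` (units `1 / 1024`); `b1`, `b2`: bounds at the two ends
(units `2 ^ (-20)`).
-/

set_option autoImplicit false

namespace Pool.Agent.BVD.S102

def ev0 : List (Int × Int) :=
  [(1024, 0), (479, 905), ((-568), 852), ((-1024), 0)]

def As0 : List Nat :=
  [0, 416, 568, 600]

def b10 : List (List Nat) := [
  [737343, 737341, 737342, 737343],
  [1228668, 1243183, 1247224, 1244121],
  [1356170, 1364183, 1365030, 1361032],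
  [1375452, 1382238, 1382445, 1378245]]

def b20 : List (List Nat) := [
  [735234, 735232, 735234, 735234],
  [1219569, 1233783, 1236628, 1230901],
  [1339955, 1351227, 1351359, 1344859],
  [1358978, 1368782, 1368384, 1361701]]

def ev1 : List (Int × Int) :=
  [(1024, 0), (945, 394), (762, 684), (525, 879), (345, 964), (149, 1013), (0, 1024),
   ((-149), 1013), ((-300), 979), ((-479), 905), ((-684), 762), ((-879), 525), ((-1013), 149),
   ((-1024), 0)]

def As1 : List Nat :=
  [600, 672, 704, 720, 736, 752, 776, 816]

def b11 : List (List Nat) := [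
  [1375452, 1377098, 1379748, 1381926, 1382971, 1383639, 1383857, 1383833, 1383565, 1382913,
   1381679, 1379946, 1378386, 1378245],
  [1404910, 1406020, 1408031, 1409793, 1410640, 1411146, 1411258, 1411138, 1410777, 1410020,
   1408666, 1406815, 1405164, 1405015],
  [1410683, 1411712, 1413649, 1415411, 1416285, 1416828, 1416968, 1416873, 1416535, 1415798,
   1414460, 1412613, 1410957, 1410806],
  [1411602, 1412626, 1414586, 1416407, 1417332, 1417928, 1418107, 1418047, 1417741, 1417037,
   1415728, 1413902, 1412255, 1412105],
  [1411091, 1412135, 1414164, 1416091, 1417097, 1417775, 1418011, 1418003, 1417744, 1417090,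
   1415830, 1414039, 1412410, 1412261],
  [1409053, 1410143, 1412293, 1414379, 1415498, 1416290, 1416605, 1416669, 1416476, 1415891,
   1414699, 1412960, 1411358, 1411211],
  [1402893, 1404110, 1406550, 1408989, 1410352, 1411384, 1411863, 1412077, 1412022, 1411582,
   1410533, 1408907, 1407368, 1407225],
  [1383307, 1384922, 1388218, 1391631, 1393640, 1395295, 1396198, 1396794, 1397090, 1397021,
   1396342, 1395011, 1393641, 1393511]]

def b21 : List (List Nat) := [
  [1358978, 1361790, 1365542, 1368388, 1369687, 1370469, 1370679, 1370563, 1370113, 1369102,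
   1367201, 1364470, 1361935, 1361701],
  [1388146, 1389946, 1392970, 1395503, 1396699, 1397409, 1397571, 1397408, 1396908, 1395833,
   1393855, 1391035, 1388411, 1388168],
  [1393775, 1395420, 1398377, 1400990, 1402278, 1403089, 1403320, 1403217, 1402769, 1401745,
   1399809, 1397010, 1394382, 1394137],
  [1394617, 1396243, 1399248, 1401976, 1403356, 1404261, 1404555, 1404509, 1404111, 1403137,
   1401248, 1398479, 1395860, 1395616],
  [1394027, 1395674, 1398790, 1401693, 1403202, 1404234, 1404615, 1404646, 1404316, 1403412,
   1401588, 1398865, 1396265, 1396022],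
  [1391905, 1393615, 1396913, 1400060, 1401739, 1402937, 1403430, 1403561, 1403320, 1402509,
   1400772, 1398112, 1395540, 1395298],
  [1385612, 1387502, 1391229, 1394892, 1396918, 1398449, 1399164, 1399492, 1399429, 1398801,
   1397239, 1394711, 1392201, 1391963],
  [1365781, 1368257, 1373225, 1378253, 1381155, 1383505, 1384762, 1385570, 1385936, 1385752,
   1384620, 1382417, 1380070, 1379843]]

def ev2 : List (Int × Int) :=
  [(1024, 0), (609, 823), ((-101), 1019), ((-762), 684), ((-1024), 0)]

def As2 : List Nat :=
  [816, 864, 952, 984]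

def b12 : List (List Nat) := [
  [1383307, 1390524, 1396636, 1395897, 1393511],
  [1341483, 1352962, 1363600, 1365372, 1363651],
  [1194515, 1228753, 1253053, 1261113, 1260894],
  [1132031, 1172563, 1196531, 1204531, 1204038]]

def b22 : List (List Nat) := [
  [1365781, 1376635, 1385359, 1383889, 1379843],
  [1323619, 1340605, 1355021, 1356373, 1352965],
  [1175858, 1226700, 1255220, 1262527, 1260169],
  [1145305, 1181196, 1205860, 1212222, 1209039]]

end Pool.Agent.BVD.S102
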