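/-!
# Grid of the slice `[128 / 1024, 154 / 1024]`: nodes and bounds (data)

`ev`: nodes `e` (units `1 / 1024`); `As`: nodes `a` (units `1 / 1024`); `b1`, `b2`: bounds at the two ends
(units `2 ^ (-20)`).
-/

set_option autoImplicit false

namespace Pool.Agent.BVD.S128

def ev0 : List (Int × Int) :=
  [(1024, 0), (792, 649), (300, 979), ((-300), 979), ((-792), 649), ((-1024), 0)]

def As0 : List Nat :=
  [0, 424, 584, 648]

def b10 : List (List Nat) := [
  [735234, 735232, 735232, 735232, 735232, 735234],
  [1226303, 1235746, 1242970, 1245031, 1241690, 1238099],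
  [1349859, 1356490, 1361580, 1361912, 1357706, 1353639],
  [1380783, 1385570, 1389984, 1389943, 1385468, 1381241]]

def b20 : List (List Nat) := [
  [732685, 732682, 732681, 732681, 732682, 732685],
  [1218899, 1226685, 1233974, 1235485, 1230125, 1224579],
  [1334552, 1343346, 1349260, 1349350, 1343510, 1337491],
  [1364532, 1371380, 1377005, 1376946, 1370960, 1364789]]

def ev1 : List (Int × Int) :=
  [(1024, 0), (905, 479), (684, 762), (437, 926), (250, 993), (101, 1019), ((-45), 1023),
   ((-201), 1004), ((-345), 964), ((-525), 879), ((-724), 724), ((-926), 437), ((-1024), 0)]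

def As1 : List Nat :=
  [648, 688, 712, 728, 744, 760, 792, 840]

def b11 : List (List Nat) := [
  [1380783, 1383642, 1387002, 1389234, 1390183, 1390552, 1390602, 1390314, 1389723, 1388497,
   1386399, 1383246, 1381241],
  [1391590, 1394041, 1397232, 1399479, 1400474, 1400881, 1400964, 1400705, 1400134, 1398925,
   1396833, 1393665, 1391638],
  [1394369, 1396736, 1399979, 1402357, 1403456, 1403942, 1404093, 1403898, 1403378, 1402222,
   1400175, 1397033, 1395007],
  [1394507, 1396886, 1400242, 1402773, 1403982, 1404547, 1404770, 1404642, 1404175, 1403077,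
   1401081, 1397974, 1395956],
  [1393164, 1395613, 1399154, 1401899, 1403257, 1403928, 1404244, 1404204, 1403810, 1402789,
   1400863, 1397807, 1395805],
  [1390237, 1392817, 1396628, 1399657, 1401205, 1402011, 1402446, 1402519, 1402217, 1401296,
   1399461, 1396475, 1394494],
  [1379166, 1382226, 1386877, 1390722, 1392801, 1393980, 1394741, 1395123, 1395072, 1394426,
   1392846, 1390058, 1388144],
  [1347468, 1351985, 1358920, 1364802, 1368144, 1370191, 1371700, 1372787, 1373310, 1373289,
   1372291, 1369968, 1368216]]

def b21 : List (List Nat) := [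
  [1364532, 1368814, 1373233, 1376066, 1377254, 1377714, 1377776, 1377415, 1376665, 1375077,
   1372253, 1367776, 1364789],
  [1375131, 1378748, 1383104, 1386101, 1387432, 1387994, 1388139, 1387851, 1387154, 1385617,
   1382834, 1378362, 1375345],
  [1377778, 1381241, 1385734, 1388973, 1390480, 1391166, 1391418, 1391226, 1390604, 1389146,
   1386430, 1381996, 1378974],
  [1377824, 1381285, 1385966, 1389444, 1391115, 1391917, 1392268, 1392167, 1391617, 1390234,
   1387586, 1383194, 1380175],
  [1376384, 1379928, 1384889, 1388679, 1390558, 1391505, 1391981, 1391996, 1391538, 1390252,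
   1387690, 1383358, 1380347],
  [1373355, 1377073, 1382420, 1386606, 1388743, 1389868, 1390498, 1390654, 1390309, 1389144,
   1386691, 1382434, 1379438],
  [1362068, 1366442, 1372950, 1378230, 1381054, 1382650, 1383682, 1384211, 1384164, 1383317,
   1381152, 1377104, 1374155],
  [1330000, 1336430, 1346022, 1353911, 1358287, 1360920, 1362826, 1364160, 1364755, 1364596,
   1363057, 1359468, 1356628]]

def ev2 : List (Int × Int) :=
  [(1024, 0), (609, 823), ((-101), 1019), ((-762), 684), ((-1024), 0)]

def As2 : List Nat :=
  [840, 904, 984]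

def b12 : List (List Nat) := [
  [1347468, 1360894, 1372153, 1371969, 1368216],
  [1269584, 1295981, 1317023, 1321348, 1318570],
  [1145305, 1181196, 1205860, 1212222, 1209039]]

def b22 : List (List Nat) := [
  [1330000, 1348695, 1363388, 1362566, 1356628],
  [1251522, 1288078, 1313682, 1317407, 1312190],
  [1157693, 1191676, 1216305, 1220826, 1214010]]

end Pool.Agent.BVD.S128
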