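/-!
# Grid of the slice `[26 / 1024, 51 / 1024]`: nodes and bounds (data)

`ev`: nodes `e` (units `1 / 1024`); `As`: nodes `a` (units `1 / 1024`); `b1`, `b2`: bounds at the two ends
(units `2 ^ (-20)`).
-/

set_option autoImplicit false

namespace Pool.Agent.BVD.S26

def ev0 : List (Int × Int) :=
  [(1024, 0), (479, 905), ((-568), 852), ((-1024), 0)]

def As0 : List Nat :=
  [0, 432, 592, 648]

def b10 : List (List Nat) := [
  [740725, 740724, 740725, 740725],
  [1291729, 1294074, 1296763, 1297403],
  [1421757, 1422599, 1423292, 1423248],
  [1448615, 1449136, 1449341, 1449116]]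

def b20 : List (List Nat) := [
  [740020, 740019, 740019, 740020],
  [1274652, 1280593, 1284714, 1284863],
  [1404511, 1406827, 1407768, 1406956],
  [1431293, 1432924, 1433083, 1432008]]

def ev1 : List (Int × Int) :=
  [(1024, 0), (979, 300), (852, 568), (684, 762), (479, 905), (250, 993), (0, 1024),
   ((-250), 993), ((-479), 905), ((-684), 762), ((-852), 568), ((-979), 300), ((-1024), 0)]

def As1 : List Nat :=
  [648, 688, 712, 736, 760, 792]

def b11 : List (List Nat) := [
  [1448615, 1448670, 1448812, 1448975, 1449136, 1449268, 1449356, 1449385, 1449362, 1449302,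
   1449223, 1449146, 1449116],
  [1459887, 1459929, 1460039, 1460161, 1460275, 1460358, 1460395, 1460378, 1460314, 1460217,
   1460110, 1460012, 1459974],
  [1462969, 1463009, 1463111, 1463225, 1463329, 1463401, 1463429, 1463401, 1463329, 1463225,
   1463112, 1463010, 1462970],
  [1462951, 1462992, 1463098, 1463217, 1463328, 1463409, 1463445, 1463426, 1463361, 1463263,
   1463155, 1463056, 1463017],
  [1459508, 1459555, 1459679, 1459821, 1459960, 1460070, 1460138, 1460149, 1460110, 1460035,
   1459944, 1459858, 1459824],
  [1448940, 1449006, 1449180, 1449386, 1449601, 1449794, 1449947, 1450041, 1450074, 1450060,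
   1450019, 1449968, 1449947]]

def b21 : List (List Nat) := [
  [1431293, 1431476, 1431943, 1432453, 1432924, 1433271, 1433446, 1433416, 1433210, 1432878,
   1432500, 1432147, 1432008],
  [1442504, 1442659, 1443055, 1443486, 1443877, 1444149, 1444253, 1444159, 1443900, 1443522,
   1443106, 1442726, 1442577],
  [1445546, 1445696, 1446080, 1446499, 1446882, 1447147, 1447248, 1447152, 1446890, 1446510,
   1446091, 1445707, 1445557],
  [1445485, 1445640, 1446038, 1446478, 1446888, 1447186, 1447320, 1447255, 1447019, 1446659,
   1446255, 1445882, 1445735],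
  [1441997, 1442167, 1442611, 1443112, 1443593, 1443967, 1444179, 1444187, 1444011, 1443701,
   1443334, 1442986, 1442848],
  [1431363, 1431578, 1432144, 1432799, 1433460, 1434021, 1434424, 1434606, 1434577, 1434388,
   1434113, 1433830, 1433714]]

def ev2 : List (Int × Int) :=
  [(1024, 0), (479, 905), ((-525), 879), ((-1024), 0)]

def As2 : List Nat :=
  [792, 832, 912, 984]

def b12 : List (List Nat) := [
  [1448940, 1449601, 1450074, 1449947],
  [1424633, 1425784, 1427037, 1427244],
  [1328552, 1331941, 1336587, 1338201],
  [1165633, 1174633, 1185561, 1189341]]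

def b22 : List (List Nat) := [
  [1431363, 1433460, 1434548, 1433714],
  [1406963, 1410197, 1412870, 1412627],
  [1310656, 1319069, 1328218, 1330258],
  [1147464, 1170876, 1189502, 1194105]]

end Pool.Agent.BVD.S26
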