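/-!
# Grid of the slice `[51 / 1024, 77 / 1024]`: nodes and bounds (data)

`ev`: nodes `e` (units `1 / 1024`); `As`: nodes `a` (units `1 / 1024`); `b1`, `b2`: bounds at the two ends
(units `2 ^ (-20)`).
-/

set_option autoImplicit false

namespace Pool.Agent.BVD.S51

def ev0 : List (Int × Int) :=
  [(1024, 0), (684, 762), ((-45), 1023), ((-762), 684), ((-1024), 0)]

def As0 : List Nat :=
  [0, 432, 592, 648]

def b10 : List (List Nat) := [
  [740042, 740041, 740042, 740041, 740042],
  [1274674, 1278939, 1283420, 1284909, 1284885],
  [1404533, 1406161, 1407817, 1407536, 1406978],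
  [1431315, 1432475, 1433477, 1432737, 1432030]]

def b20 : List (List Nat) := [
  [738845, 738844, 738845, 738844, 738845],
  [1257839, 1265989, 1271961, 1272541, 1271618],
  [1387127, 1390400, 1393004, 1391657, 1390154],
  [1413783, 1416227, 1418033, 1416188, 1414521]]

def ev1 : List (Int × Int) :=
  [(1024, 0), (979, 300), (852, 568), (684, 762), (479, 905), (300, 979), (101, 1019),
   ((-101), 1019), ((-300), 979), ((-479), 905), ((-684), 762), ((-852), 568), ((-979), 300),
   ((-1024), 0)]

def As1 : List Nat :=
  [648, 688, 712, 736, 752, 784, 840]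

def b11 : List (List Nat) := [
  [1431315, 1431498, 1431965, 1432475, 1432946, 1433233, 1433422, 1433480, 1433407, 1433232,
   1432900, 1432522, 1432169, 1432030],
  [1442525, 1442681, 1443077, 1443508, 1443899, 1444126, 1444256, 1444261, 1444139, 1443922,
   1443544, 1443128, 1442748, 1442599],
  [1445568, 1445718, 1446102, 1446521, 1446904, 1447126, 1447253, 1447255, 1447131, 1446912,
   1446532, 1446113, 1445729, 1445579],
  [1445507, 1445662, 1446060, 1446500, 1446910, 1447157, 1447311, 1447340, 1447240, 1447041,
   1446681, 1446277, 1445904, 1445757],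
  [1443584, 1443748, 1444173, 1444649, 1445101, 1445383, 1445575, 1445640, 1445574, 1445403,
   1445072, 1444691, 1444332, 1444191],
  [1434731, 1434932, 1435460, 1436067, 1436673, 1437082, 1437408, 1437599, 1437650, 1437577,
   1437351, 1437048, 1436745, 1436622],
  [1400430, 1400776, 1401700, 1402805, 1403977, 1404847, 1405652, 1406294, 1406758, 1407030,
   1407172, 1407150, 1407046, 1406992]]

def b21 : List (List Nat) := [
  [1413783, 1414189, 1415188, 1416227, 1417140, 1417664, 1417976, 1418017, 1417790, 1417354,
   1416571, 1415684, 1414851, 1414521],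
  [1424892, 1425242, 1426118, 1427045, 1427866, 1428333, 1428595, 1428593, 1428328, 1427859,
   1427037, 1426116, 1425257, 1424916],
  [1427868, 1428208, 1429065, 1429986, 1430816, 1431295, 1431575, 1431592, 1431342, 1430885,
   1430073, 1429157, 1428298, 1427958],
  [1427736, 1428084, 1428972, 1429942, 1430838, 1431377, 1431720, 1431796, 1431599, 1431184,
   1430414, 1429526, 1428685, 1428350],
  [1425763, 1426128, 1427067, 1428106, 1429085, 1429692, 1430107, 1430250, 1430112, 1429746,
   1429024, 1428171, 1427353, 1427025],
  [1416802, 1417236, 1418364, 1419645, 1420900, 1421732, 1422376, 1422730, 1422781, 1422568,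
   1422003, 1421263, 1420521, 1420218],
  [1382285, 1382986, 1384832, 1386989, 1389208, 1390798, 1392203, 1393251, 1393916, 1394200,
   1394147, 1393781, 1393295, 1393077]]

def ev2 : List (Int × Int) :=
  [(1024, 0), (437, 926), ((-609), 823), ((-1024), 0)]

def As2 : List Nat :=
  [840, 920, 984]

def b12 : List (List Nat) := [
  [1400430, 1404194, 1407141, 1406992],
  [1296720, 1306595, 1316632, 1318474],
  [1147484, 1172056, 1190471, 1194126]]

def b22 : List (List Nat) := [
  [1382285, 1389609, 1394213, 1393077],
  [1278187, 1296262, 1310779, 1312008],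
  [1128542, 1174344, 1196541, 1199130]]

end Pool.Agent.BVD.S51
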