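/-!
# Grid of the slice `[77 / 1024, 102 / 1024]`: nodes and bounds (data)

`ev`: nodes `e` (units `1 / 1024`); `As`: nodes `a` (units `1 / 1024`); `b1`, `b2`: bounds at the two ends
(units `2 ^ (-20)`).
-/

set_option autoImplicit false

namespace Pool.Agent.BVD.S77

def ev0 : List (Int × Int) :=
  [(1024, 0), (479, 905), ((-568), 852), ((-1024), 0)]

def As0 : List Nat :=
  [0, 424, 576, 600]

def b10 : List (List Nat) := [
  [738879, 738878, 738878, 738879],
  [1249840, 1260818, 1265364, 1264194],
  [1377470, 1382376, 1383501, 1381360],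
  [1391680, 1395959, 1396599, 1394307]]

def b20 : List (List Nat) := [
  [737288, 737286, 737287, 737288],
  [1236590, 1250659, 1254585, 1251453],
  [1361253, 1368933, 1369610, 1365558],
  [1375397, 1382183, 1382390, 1378190]]

def ev1 : List (Int × Int) :=
  [(1024, 0), (945, 394), (762, 684), (568, 852), (345, 964), (149, 1013), ((-45), 1023),
   ((-250), 993), ((-437), 926), ((-649), 792), ((-852), 568), ((-993), 250), ((-1024), 0)]

def As1 : List Nat :=
  [600, 672, 704, 720, 736, 752, 784, 840]

def b11 : List (List Nat) := [
  [1391680, 1392589, 1394246, 1395511, 1396499, 1397028, 1397271, 1397239, 1396951, 1396317,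
   1395380, 1394520, 1394307],
  [1421357, 1421985, 1423181, 1424112, 1424817, 1425146, 1425219, 1425025, 1424601, 1423820,
   1422746, 1421790, 1421556],
  [1427240, 1427826, 1428960, 1429860, 1430551, 1430877, 1430950, 1430756, 1430331, 1429546,
   1428463, 1427499, 1427261],
  [1428219, 1428803, 1429947, 1430867, 1431586, 1431938, 1432035, 1431865, 1431459, 1430692,
   1429622, 1428664, 1428428],
  [1427770, 1428369, 1429553, 1430521, 1431296, 1431695, 1431836, 1431708, 1431336, 1430603,
   1429560, 1428617, 1428384],
  [1425797, 1426426, 1427685, 1428732, 1429594, 1430065, 1430272, 1430207, 1429887, 1429205,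
   1428205, 1427287, 1427059],
  [1416836, 1417585, 1419113, 1420430, 1421579, 1422280, 1422696, 1422831, 1422675, 1422158,
   1421297, 1420463, 1420252],
  [1382319, 1383532, 1386060, 1388332, 1390461, 1391931, 1393032, 1393817, 1394194, 1394219,
   1393815, 1393264, 1393111]]

def b21 : List (List Nat) := [
  [1375397, 1377043, 1379693, 1381553, 1382916, 1383584, 1383820, 1383627, 1383045, 1381874,
   1380168, 1378587, 1378190],
  [1404855, 1405965, 1407976, 1409478, 1410585, 1411091, 1411192, 1410870, 1410176, 1408882,
   1407054, 1405379, 1404960],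
  [1410628, 1411657, 1413594, 1415092, 1416230, 1416773, 1416909, 1416620, 1415950, 1414674,
   1412853, 1411173, 1410751],
  [1411547, 1412571, 1414531, 1416076, 1417277, 1417873, 1418059, 1417816, 1417181, 1415938,
   1414139, 1412470, 1412050],
  [1411036, 1412080, 1414109, 1415741, 1417042, 1417720, 1417979, 1417805, 1417224, 1416032,
   1414272, 1412623, 1412206],
  [1408998, 1410088, 1412238, 1414000, 1415443, 1416235, 1416596, 1416515, 1416010, 1414890,
   1413187, 1411567, 1411156],
  [1399898, 1401173, 1403744, 1405925, 1407802, 1408934, 1409595, 1409793, 1409509, 1408607,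
   1407076, 1405555, 1405162],
  [1365101, 1367108, 1371215, 1374812, 1378089, 1380282, 1381859, 1382901, 1383289, 1383046,
   1382050, 1380837, 1380505]]

def ev2 : List (Int × Int) :=
  [(1024, 0), (437, 926), ((-568), 852), ((-1024), 0)]

def As2 : List Nat :=
  [840, 904, 984]

def b12 : List (List Nat) := [
  [1382319, 1389643, 1394262, 1393111],
  [1305332, 1320263, 1332091, 1332951],
  [1128574, 1174376, 1196144, 1199162]]

def b22 : List (List Nat) := [
  [1365101, 1376842, 1383230, 1380505],
  [1287723, 1310909, 1326149, 1325543],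
  [1131980, 1180523, 1203302, 1203987]]

end Pool.Agent.BVD.S77
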