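import Pool.Agent.Lib.BNC.Rec
import Pool.Agent.Lib.BVD.G0

/-!
# The record of the slice `[0 / 1024, 26 / 1024]`
-/

set_option autoImplicit false

namespace Pool.Agent.BVD.S0

open Pool.Agent.BNC

def B0 : Block where
  es := ev0
  kap := [150339, 147857, 124098]
  As := As0
  b1 := b10
  b2 := b20
  st := [
    ⟨1573590296, 1222437856, 1629572145, 4161426444, 106900132, 28586780⟩,
    ⟨1849798536, 1897937388, 1851067629, 5649546644, 22774884, 28586780⟩,
    ⟨1969058896, 2189602536, 1675558657, 5402016500, 3347260, 28586780⟩,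
    ⟨2007040303, 2282490507, 1563002343, 5118026131, 786347, 28586780⟩]

def B1 : Block where
  es := ev1
  kap := [20544, 20068, 20068, 20544, 20544, 20068, 20068, 20544]
  As := As1
  b1 := b11
  b2 := b21
  st := [
    ⟨2089598608, 2484396490, 1636004876, 5526211113, 1578025, 28586780⟩,
    ⟨2134743671, 2594804020, 1581523055, 5426239811, 817509, 28586780⟩,
    ⟨2182933859, 2712658756, 1585592417, 5526317542, 829767, 28586780⟩,
    ⟨2234607610, 2839032954, 1588539594, 5624967498, 843216, 28586780⟩,
    ⟨2290296525, 2975226702, 1590324082, 5722168688, 858062, 28586780⟩]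

def B2 : Block where
  es := ev2
  kap := [91019, 77876, 81860, 69397]
  As := As2
  b1 := b12
  b2 := b22
  st := [
    ⟨2451766951, 3370121502, 1730719494, 6488704325, 2762471, 28586780⟩,
    ⟨2941825296, 4568616459, 2149331077, 8825097545, 13295932, 28586780⟩,
    ⟨4798048302, 9108226762, 3757044762, 18021184464, 49376342, 28586780⟩]

def S : NSlice where
  T := 0
  L1 := 0
  L2 := 26
  R1 := 11855231
  R2 := 11704649
  F := 1517960347
  Fd := 2623245723
  P := 6246231118
  Pd := 17631091956
  KL := 3646149902
  blocks := [B0, B1, B2]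

theorem ok : S.ok = true := by decide +kernel

end Pool.Agent.BVD.S0
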