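import Pool.Agent.Lib.BNC.Rec
import Pool.Agent.Lib.BVD.G102

/-!
# The record of the slice `[102 / 1024, 128 / 1024]`
-/

set_option autoImplicit false

namespace Pool.Agent.BVD.S102

open Pool.Agent.BNC

def B0 : Block where
  es := ev0
  kap := [150339, 147857, 124098]
  As := As0
  b1 := b10
  b2 := b20
  st := [
    ⟨1526676356, 993629957, 1457623777, 3354998612, 92572552, 137543466⟩,
    ⟨1738941865, 1459289680, 1579020503, 4229193427, 16409528, 137543466⟩,
    ⟨1793396834, 1578750848, 1392554737, 3844323279, 1205620, 137543466⟩]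

def B1 : Block where
  es := ev1
  kap := [20544, 14963, 11998, 5121, 5243, 2898, 2898, 3103, 4768, 7894, 11998, 20268, 2898]
  As := As1
  b1 := b11
  b2 := b21
  st := [
    ⟨1935487662, 1890464117, 1538453121, 4543784002, 4888657, 137543466⟩,
    ⟨2010296468, 2054576732, 1438932103, 4380186255, 1398565, 137543466⟩,
    ⟨2051247917, 2144414410, 1387655284, 4289018852, 699445, 137543466⟩,
    ⟨2094990598, 2240375384, 1387828469, 4356105979, 710049, 137543466⟩,
    ⟨2141924490, 2343337108, 1386963524, 4421732591, 721676, 137543466⟩,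
    ⟨2219399397, 2513298512, 1419169811, 4633370354, 1101421, 137543466⟩,
    ⟨2373149713, 2850589907, 1499429432, 5101611277, 2511411, 137543466⟩]

def B2 : Block where
  es := ev2
  kap := [112402, 70358, 71092, 69397]
  As := As2
  b1 := b12
  b2 := b22
  st := [
    ⟨2620334221, 3392853555, 1567278250, 5625955603, 4066415, 137543466⟩,
    ⟨3552097556, 5436919304, 2273229659, 9232141128, 22768817, 137543466⟩,
    ⟨4481109216, 7474948535, 1703892008, 7388424318, 5149570, 137543466⟩]

def S : NSlice where
  T := 0
  L1 := 102
  L2 := 128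
  R1 := 11266039
  R2 := 11116998
  F := 1460505134
  Fd := 2151511572
  P := 5463663348
  Pd := 13363871569
  KL := 3446502797
  blocks := [B0, B1, B2]

theorem ok : S.ok = true := by decide +kernel

end Pool.Agent.BVD.S102
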