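import Pool.Agent.Lib.BNC.Rec
import Pool.Agent.Lib.BVD.G128

/-!
# The record of the slice `[128 / 1024, 154 / 1024]`
-/

set_option autoImplicit false

namespace Pool.Agent.BVD.S128

open Pool.Agent.BNC

def B0 : Block where
  es := ev0
  kap := [61221, 44900, 46080, 44900, 61221]
  As := As0
  b1 := b10
  b2 := b20
  st := [
    ⟨1534117493, 984568771, 1452395872, 3316638507, 96742157, 164136352⟩,
    ⟨1756365893, 1459873721, 1577312157, 4199404258, 18410341, 164136352⟩,
    ⟨1872243299, 1707691498, 1459590874, 4122205210, 3702972, 164136352⟩]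

def B1 : Block where
  es := ev1
  kap := [30963, 16298, 11113, 5010, 2878, 2681, 3172, 2924, 5121, 8140, 15626, 25446]
  As := As1
  b1 := b11
  b2 := b21
  st := [
    ⟨1957302266, 1889600336, 1417450053, 4154292635, 1830107, 164136352⟩,
    ⟨2014535154, 2011999754, 1373917284, 4118293553, 966964, 164136352⟩,
    ⟨2055836215, 2100327044, 1347253088, 4100071698, 681156, 164136352⟩,
    ⟨2100061559, 2194908263, 1346039214, 4159702059, 691866, 164136352⟩,
    ⟨2147641818, 2296664375, 1343791359, 4217862552, 703643, 164136352⟩,
    ⟨2255092001, 2526459521, 1409597609, 4568041963, 1620205, 164136352⟩,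
    ⟨2459549938, 2963717425, 1499971361, 5114853246, 3607394, 164136352⟩]

def B2 : Block where
  es := ev2
  kap := [112402, 70358, 71092, 69397]
  As := As2
  b1 := b12
  b2 := b22
  st := [
    ⟨2885464514, 3874587002, 1680594952, 6193983577, 8197376, 164136352⟩,
    ⟨4413166977, 7141762568, 2651898170, 11234953006, 28806936, 164136352⟩]

def S : NSlice where
  T := 0
  L1 := 128
  L2 := 154
  R1 := 11116998
  R2 := 10968590
  F := 1450152941
  Fd := 2055015648
  P := 5291524853
  Pd := 12501754688
  KL := 3419137483
  blocks := [B0, B1, B2]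

theorem ok : S.ok = true := by decide +kernel

end Pool.Agent.BVD.S128
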