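import Pool.Agent.Lib.BNC.Rec
import Pool.Agent.Lib.BVD.G154

/-!
# The record of the slice `[154 / 1024, 179 / 1024]`
-/

set_option autoImplicit false

namespace Pool.Agent.BVD.S154

open Pool.Agent.BNC

def B0 : Block where
  es := ev0
  kap := [150339, 147857, 124098]
  As := As0
  b1 := b10
  b2 := b20
  st := [
    ⟨1514947534, 920634169, 1397417644, 3095840067, 86898094, 188871423⟩,
    ⟨1631368478, 1163561892, 1363198147, 3307780792, 5940653, 188871423⟩]

def B1 : Block where
  es := ev1
  kap := [30963, 20698, 7959, 5010, 2878, 2681, 3172, 2924, 5121, 8140, 15626, 25446]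
  As := As1
  b1 := b11
  b2 := b21
  st := [
    ⟨1830962668, 1580041614, 1546738162, 4216274471, 12824278, 188871423⟩,
    ⟨1944181037, 1816286740, 1424790233, 4086916399, 3070824, 188871423⟩,
    ⟨2000055286, 1932875764, 1336159068, 3918717155, 908423, 188871423⟩,
    ⟨2040393604, 2017047009, 1309372893, 3898154462, 628008, 188871423⟩,
    ⟨2083602212, 2107207493, 1307334002, 3951623768, 638338, 188871423⟩,
    ⟨2106411360, 2154801803, 1275433420, 3884901148, 450972, 188871423⟩,
    ⟨2154744409, 2255655114, 1302370393, 4029096052, 655817, 188871423⟩,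
    ⟨2264443131, 2484556031, 1365940970, 4363372724, 1575667, 188871423⟩,
    ⟨2435196072, 2840854664, 1406927912, 4689520032, 2535222, 188871423⟩]

def B2 : Block where
  es := ev2
  kap := [79931, 53232, 44937, 45671, 37922]
  As := As2
  b1 := b12
  b2 := b22
  st := [
    ⟨2852221058, 3711032549, 1620172361, 5836193659, 7932105, 188871423⟩,
    ⟨4349313096, 6834913433, 2541328136, 10528684957, 27801103, 188871423⟩]

def S : NSlice where
  T := 0
  L1 := 154
  L2 := 179
  R1 := 10968590
  R2 := 10826430
  F := 1441196420
  Fd := 1966074845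
  P := 5128894913
  Pd := 11712611432
  KL := 3396223735
  blocks := [B0, B1, B2]

theorem ok : S.ok = true := by decide +kernel

end Pool.Agent.BVD.S154
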