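import Pool.Agent.Lib.BNC.Rec
import Pool.Agent.Lib.BVD.G179

/-!
# The record of the slice `[179 / 1024, 205 / 1024]`
-/

set_option autoImplicit false

namespace Pool.Agent.BVD.S179

open Pool.Agent.BNC

def B0 : Block where
  es := ev0
  kap := [61221, 52903, 53661, 52948, 37922]
  As := As0
  b1 := b10
  b2 := b20
  st := [
    ⟨1525126712, 920538440, 1397904046, 3085402401, 91299471, 214949831⟩,
    ⟨1730269257, 1338898921, 1502308234, 3827309229, 17711070, 214949831⟩]

def B1 : Block where
  es := ev1
  kap := [30963, 16298, 11113, 5010, 2878, 1287, 1287, 1359, 1384, 2769, 2900, 8304, 14963, 20544]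
  As := As1
  b1 := b11
  b2 := b21
  st := [
    ⟨1883775102, 1651953333, 1457879721, 4014818986, 6609935, 214949831⟩,
    ⟨1969563559, 1826907291, 1351078357, 3857516789, 1806139, 214949831⟩,
    ⟨2027785690, 1945643454, 1303177034, 3803952018, 939434, 214949831⟩,
    ⟨2070056520, 2031849095, 1273666755, 3773983647, 652325, 214949831⟩,
    ⟨2115564632, 2124656735, 1269867713, 3820518207, 663336, 214949831⟩,
    ⟨2164815290, 2225096794, 1265045259, 3865588745, 675523, 214949831⟩,
    ⟨2277198524, 2454287201, 1326757546, 4186625959, 1603679, 214949831⟩,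
    ⟨2540785533, 2991837263, 1464134012, 4912241409, 4976053, 214949831⟩]

def B2 : Block where
  es := ev2
  kap := [112402, 70358, 71092, 69397]
  As := As2
  b1 := b12
  b2 := b22
  st := [
    ⟨2976960855, 3881357850, 1534383126, 5535436738, 6680328, 214949831⟩,
    ⟨4293333513, 6565921880, 2135917362, 8668960509, 17453264, 214949831⟩]

def S : NSlice where
  T := 0
  L1 := 179
  L2 := 205
  R1 := 10826430
  R2 := 10678967
  F := 1434602025
  Fd := 1887955395
  P := 4980718380
  Pd := 11015047355
  KL := 3391653726
  blocks := [B0, B1, B2]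

theorem ok : S.ok = true := by decide +kernel

end Pool.Agent.BVD.S179
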