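import Pool.Agent.Lib.BNC.Rec
import Pool.Agent.Lib.BVD.G205

/-!
# The record of the slice `[205 / 1024, 230 / 1024]`
-/

set_option autoImplicit false

namespace Pool.Agent.BVD.S205

open Pool.Agent.BNC

def B0 : Block where
  es := ev0
  kap := [91019, 77876, 81860, 69397]
  As := As0
  b1 := b10
  b2 := b20
  st := [
    ⟨1518467045, 886233154, 1366847997, 2962333411, 86503952, 238806220⟩,
    ⟨1690561924, 1229177919, 1425264481, 3497834084, 13662977, 238806220⟩]

def B1 : Block where
  es := ev1
  kap := [37922, 20599, 7852, 5262, 3172, 1024, 1469, 1430, 1362, 2811, 5278, 8186, 20099, 7977]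
  As := As1
  b1 := b11
  b2 := b21
  st := [
    ⟨1768688255, 1384865391, 1315559094, 3375698582, 2260875, 238806220⟩,
    ⟨1859460083, 1565752373, 1336555434, 3587439829, 2460734, 238806220⟩,
    ⟨1958580420, 1763275978, 1340755178, 3754872437, 2346028, 238806220⟩,
    ⟨2015477769, 1876659062, 1269870126, 3634682395, 887584, 238806220⟩,
    ⟨2056808230, 1959020986, 1240289255, 3602933124, 605520, 238806220⟩,
    ⟨2101321332, 2047725167, 1235761886, 3644247132, 616154, 238806220⟩,
    ⟨2149512923, 2143759716, 1230236090, 3684122775, 627924, 238806220⟩,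
    ⟨2230078578, 2304308188, 1255087728, 3848816000, 1005363, 238806220⟩,
    ⟨2393989829, 2630944900, 1323814153, 4233502448, 2420465, 238806220⟩]

def B2 : Block where
  es := ev2
  kap := [100896, 45001, 38017, 38315, 45017]
  As := As2
  b1 := b12
  b2 := b22
  st := [
    ⟨2564941289, 2971611102, 1275640073, 4231424066, 1874408, 238806220⟩,
    ⟨3133422850, 4104461641, 1599666679, 5790464306, 9388129, 238806220⟩,
    ⟨4237749257, 6305125395, 1751131748, 6961966358, 9648582, 238806220⟩]

def S : NSlice where
  T := 0
  L1 := 205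
  L2 := 230
  R1 := 10678967
  R2 := 10537241
  F := 1428690136
  Fd := 1812189575
  P := 4834314246
  Pd := 10345910081
  KL := 3385602261
  blocks := [B0, B1, B2]

theorem ok : S.ok = true := by decide +kernel

end Pool.Agent.BVD.S205
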