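import Pool.Agent.Lib.BNC.Rec
import Pool.Agent.Lib.BVD.G230

/-!
# The record of the slice `[230 / 1024, 256 / 1024]`
-/

set_option autoImplicit false

namespace Pool.Agent.BVD.S230

open Pool.Agent.BNC

def B0 : Block where
  es := ev0
  kap := [91019, 77876, 81860, 69397]
  As := As0
  b1 := b10
  b2 := b20
  st := [
    ⟨1514566660, 859676432, 1341788089, 2865000803, 82439375, 264273939⟩,
    ⟨1699761591, 1220835116, 1432114810, 3489316312, 16918688, 264273939⟩,
    ⟨1758519216, 1335421549, 1267869716, 3193513206, 1488754, 264273939⟩]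

def B1 : Block where
  es := ev1
  kap := [37922, 20599, 11443, 5243, 2898, 1287, 1359, 1384, 1408, 1262, 3141, 5539, 11113, 25446]
  As := As1
  b1 := b11
  b2 := b21
  st := [
    ⟨1883727653, 1579597315, 1362998387, 3648879352, 4495183, 264273939⟩,
    ⟨1968113449, 1744162635, 1289959287, 3576309995, 1768159, 264273939⟩,
    ⟨2025706014, 1856477021, 1239836404, 3512355492, 910995, 264273939⟩,
    ⟨2067681080, 1938334875, 1208869714, 3475364627, 627253, 264273939⟩,
    ⟨2113022606, 2026757846, 1203171085, 3511273638, 638102, 264273939⟩,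
    ⟨2162271658, 2122801093, 1196480752, 3545760628, 650153, 264273939⟩,
    ⟨2244990845, 2284116269, 1219961290, 3702406539, 1031595, 264273939⟩,
    ⟨2376907183, 2541373476, 1247127629, 3913968891, 1675986, 264273939⟩]

def B2 : Block where
  es := ev2
  kap := [91019, 37222, 20480, 25394, 26256, 30963]
  As := As2
  b1 := b12
  b2 := b22
  st := [
    ⟨2544742159, 2868677571, 1238963565, 4032320821, 1865095, 264273939⟩,
    ⟨3005528485, 3767281986, 1452214777, 5092774230, 6715939, 264273939⟩,
    ⟨4189470214, 6076150994, 1834748302, 7156761420, 12688424, 264273939⟩]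

def S : NSlice where
  T := 0
  L1 := 230
  L2 := 256
  R1 := 10537241
  R2 := 10389445
  F := 1425103535
  Fd := 1745510238
  P := 4700126985
  Pd := 9750142772
  KL := 3397780338
  blocks := [B0, B1, B2]

theorem ok : S.ok = true := by decide +kernel

end Pool.Agent.BVD.S230
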