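import Pool.Agent.Lib.BNC.Rec
import Pool.Agent.Lib.BVD.G256

/-!
# The record of the slice `[256 / 1024, 282 / 1024]`
-/

set_option autoImplicit false

namespace Pool.Agent.BVD.S256

open Pool.Agent.BNC

def B0 : Block where
  es := ev0
  kap := [91019, 69397, 69397, 91019]
  As := As0
  b1 := b10
  b2 := b20
  st := [
    ⟨1519360971, 850168048, 1331356966, 2821295399, 82456253, 288952240⟩,
    ⟨1698199152, 1191361885, 1409433169, 3386992696, 16781291, 288952240⟩,
    ⟨1755319356, 1300337841, 1245541238, 3090931249, 1470142, 288952240⟩]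

def B1 : Block where
  es := ev1
  kap := [45017, 20387, 11121, 5231, 2681, 1469, 1430, 1362, 1367, 1401, 3028, 5181, 11273, 20544]
  As := As1
  b1 := b11
  b2 := b21
  st := [
    ⟨1892873905, 1562769298, 1356962728, 3597597653, 5470560, 288952240⟩,
    ⟨1977952413, 1725085101, 1261340615, 3461514781, 1765674, 288952240⟩,
    ⟨2036303924, 1836410187, 1209143735, 3390040059, 905358, 288952240⟩,
    ⟨2078981426, 1917831843, 1176831217, 3348052519, 620474, 288952240⟩,
    ⟨2125226319, 2006059493, 1169989105, 3378758805, 631535, 288952240⟩,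
    ⟨2175630925, 2102223192, 1162163689, 3408066181, 643868, 288952240⟩,
    ⟨2230937401, 2207738852, 1153323834, 3435985675, 657733, 288952240⟩,
    ⟨2360314043, 2454568209, 1212527146, 3734420869, 1642361, 288952240⟩]

def B2 : Block where
  es := ev2
  kap := [69397, 32157, 15572, 11636, 11121, 11543, 15492, 15572]
  As := As2
  b1 := b12
  b2 := b22
  st := [
    ⟨2525034541, 2768827829, 1202738041, 3840463982, 1825486, 288952240⟩,
    ⟨2977678681, 3632398409, 1405433345, 4834341830, 6553835, 288952240⟩,
    ⟨4141851735, 5853449141, 1768124381, 6765708455, 12330128, 288952240⟩]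

def S : NSlice where
  T := 0
  L1 := 256
  L2 := 282
  R1 := 10389445
  R2 := 10240636
  F := 1422503621
  Fd := 1680609324
  P := 4566535046
  Pd := 9173676753
  KL := 3413432939
  blocks := [B0, B1, B2]

theorem ok : S.ok = true := by decide +kernel

end Pool.Agent.BVD.S256
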