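import Pool.Agent.Lib.BNC.Rec
import Pool.Agent.Lib.BVD.G26

/-!
# The record of the slice `[26 / 1024, 51 / 1024]`
-/

set_option autoImplicit false

namespace Pool.Agent.BVD.S26

open Pool.Agent.BNC

def B0 : Block where
  es := ev0
  kap := [150339, 147857, 124098]
  As := As0
  b1 := b10
  b2 := b20
  st := [
    ⟨1563650686, 1163785934, 1588612986, 3953342479, 105239208, 55772822⟩,
    ⟨1817323907, 1766390521, 1763950837, 5192977469, 19892277, 55772822⟩,
    ⟨1930912585, 2036222149, 1612831679, 5014418691, 3165818, 55772822⟩]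

def B1 : Block where
  es := ev1
  kap := [11636, 11121, 8304, 7894, 7606, 7977, 7977, 7606, 7894, 8304, 11121, 11636]
  As := As1
  b1 := b11
  b2 := b21
  st := [
    ⟨2024828228, 2259320183, 1597126100, 5161299279, 1987496, 55772822⟩,
    ⟨2087891434, 2409127786, 1553808806, 5139554602, 1057930, 55772822⟩,
    ⟨2157239863, 2573866032, 1561852094, 5288835004, 1096861, 55772822⟩,
    ⟨2234261279, 2756831575, 1567876278, 5437048489, 1141590, 55772822⟩,
    ⟨2352193186, 3036980609, 1614668852, 5784154608, 1782183, 55772822⟩]

def B2 : Block where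
  es := ev2
  kap := [150339, 134922, 136782]
  As := As2
  b1 := b12
  b2 := b22
  st := [
    ⟨2533766836, 3468311569, 1676007044, 6264365006, 2839724, 55772822⟩,
    ⟨3124776421, 4872263805, 2156035035, 8879569809, 14828326, 55772822⟩,
    ⟨4708934097, 8635454403, 2979252524, 13906226141, 26872068, 55772822⟩]

def S : NSlice where
  T := 0
  L1 := 26
  L2 := 51
  R1 := 11704649
  R2 := 11560009
  F := 1500586250
  Fd := 2486893974
  P := 6028933611
  Pd := 16389004407
  KL := 3576826439
  blocks := [B0, B1, B2]

theorem ok : S.ok = true := by decide +kernel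

end Pool.Agent.BVD.S26
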