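import Pool.Agent.Lib.BNC.Rec
import Pool.Agent.Lib.BVD.G282

/-!
# The record of the slice `[282 / 1024, 307 / 1024]`
-/

set_option autoImplicit false

namespace Pool.Agent.BVD.S282

open Pool.Agent.BNC

def B0 : Block where
  es := ev0
  kap := [61221, 44900, 46080, 44900, 61221]
  As := As0
  b1 := b10
  b2 := b20
  st := [
    ⟨1531528348, 854809791, 1333390153, 2821831368, 86408907, 311763613⟩,
    ⟨1718560928, 1204049604, 1412410210, 3391521832, 18715940, 311763613⟩,
    ⟨1789244804, 1336035291, 1244069883, 3101972462, 1967247, 311763613⟩]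

def B1 : Block where
  es := ev1
  kap := [45017, 5866, 7274, 11294, 5393, 2681, 1359, 1384, 1408, 1262, 1398, 2737, 5539, 11443, 15572]
  As := As1
  b1 := b11
  b2 := b21
  st := [
    ⟨1918444064, 1577284840, 1315293674, 3478080497, 4547000, 311763613⟩,
    ⟨2007293876, 1743191186, 1232342597, 3372745433, 1762413, 311763613⟩,
    ⟨2047504276, 1818274750, 1152025364, 3198124759, 577927, 311763613⟩,
    ⟨2090981012, 1899457436, 1145036404, 3225349805, 588080, 311763613⟩,
    ⟨2138247292, 1987716212, 1137106344, 3251216085, 599361, 311763613⟩,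
    ⟨2189954131, 2084266700, 1128202235, 3275712371, 611990, 311763613⟩,
    ⟨2246923526, 2190643785, 1118295780, 3298866386, 626253, 311763613⟩,
    ⟨2344639636, 2373105879, 1140619031, 3449553577, 1039339, 311763613⟩,
    ⟨2506349196, 2675060846, 1168030381, 3661340047, 1759279, 311763613⟩,
    ⟨2792204528, 3208829152, 1218101914, 4017811528, 3091046, 311763613⟩]

def B2 : Block where
  es := ev2
  kap := [112402, 45952, 36762, 9553, 10502, 37922]
  As := As2
  b1 := b12
  b2 := b22
  st := [
    ⟨3153501195, 3883466590, 1169005693, 4048214717, 2586041, 311763613⟩,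
    ⟨4096293675, 5643912125, 1432202744, 5378807685, 6259306, 311763613⟩]

def S : NSlice where
  T := 0
  L1 := 282
  L2 := 307
  R1 := 10240636
  R2 := 10095359
  F := 1420922586
  Fd := 1619511121
  P := 4438130902
  Pd := 8635262211
  KL := 3431454309
  blocks := [B0, B1, B2]

theorem ok : S.ok = true := by decide +kernel

end Pool.Agent.BVD.S282
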