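import Pool.Agent.Lib.BNC.Rec
import Pool.Agent.Lib.BVD.G307

/-!
# The record of the slice `[307 / 1024, 323 / 1024]`
-/

set_option autoImplicit false

namespace Pool.Agent.BVD.S307

open Pool.Agent.BNC

def B0 : Block where
  es := ev0
  kap := [52930, 37989, 31958, 31237, 32135, 30963]
  As := As0
  b1 := b10
  b2 := b20
  st := [
    ⟨1538437173, 850164290, 1326360354, 2792295042, 88692115, 320399102⟩,
    ⟨1734888742, 1209574191, 1408352657, 3372175448, 20294787, 320399102⟩,
    ⟨1820519934, 1366237222, 1236568186, 3092571465, 2384560, 320399102⟩]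

def B1 : Block where
  es := ev1
  kap := [52930, 26256, 11024, 5193, 2898, 1430, 1362, 1367, 1401, 1459, 3066, 5215, 11121, 11636]
  As := As1
  b1 := b11
  b2 := b21
  st := [
    ⟨1941184186, 1586993548, 1266075765, 3336208095, 3474429, 320399102⟩,
    ⟨2034470737, 1757662126, 1198144776, 3268396910, 1569228, 320399102⟩,
    ⟨2099696747, 1876993694, 1138222339, 3173217301, 686445, 320399102⟩,
    ⟨2148092425, 1965534019, 1100860278, 3115464773, 392803, 320399102⟩,
    ⟨2201232473, 2062754210, 1091032630, 3135825425, 405595, 320399102⟩,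
    ⟨2260029878, 2170324589, 1080213673, 3154889162, 420114, 320399102⟩,
    ⟨2325668093, 2290410289, 1068389276, 3172773645, 436773, 320399102⟩]

def B2 : Block where
  es := ev2
  kap := [79931, 31176, 11636, 5193, 5262, 5036, 5215, 8140, 15343, 5193]
  As := As2
  b1 := b12
  b2 := b22
  st := [
    ⟨2399713856, 2425877674, 1055564407, 3189710628, 456139, 320399102⟩,
    ⟨2582380850, 2760068571, 1125666663, 3531909086, 1613815, 320399102⟩,
    ⟨3013709133, 3549187517, 1262209816, 4235170459, 4661700, 320399102⟩,
    ⟨4045706728, 5437236333, 1508792885, 5564283825, 8290770, 320399102⟩]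

def S : NSlice where
  T := 0
  L1 := 307
  L2 := 323
  R1 := 10095359
  R2 := 10000634
  F := 1416686272
  Fd := 1559588739
  P := 4318291711
  Pd := 8146614673
  KL := 3406236011
  blocks := [B0, B1, B2]

theorem ok : S.ok = true := by decide +kernel

end Pool.Agent.BVD.S307
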