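import Pool.Agent.Lib.BNC.Rec
import Pool.Agent.Lib.BVD.G323

/-!
# The record of the slice `[323 / 1024, 338 / 1024]`
-/

set_option autoImplicit false

namespace Pool.Agent.BVD.S323

open Pool.Agent.BNC

def B0 : Block where
  es := ev0
  kap := [91019, 77876, 81860, 69397]
  As := As0
  b1 := b10
  b2 := b20
  st := [
    ⟨1527729122, 819817985, 1295688137, 2686286014, 80300440, 333040816⟩,
    ⟨1691782235, 1116067886, 1346453482, 3122962846, 15852405, 333040816⟩,
    ⟨1744958805, 1212095040, 1184817252, 2830828734, 1166501, 333040816⟩]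

def B1 : Block where
  es := ev1
  kap := [52930, 26256, 11024, 5193, 2898, 1430, 1362, 1367, 1401, 1459, 1353, 639, 1005, 5278, 15285,
     2898]
  As := As1
  b1 := b11
  b2 := b21
  st := [
    ⟨1904418154, 1500049445, 1322161058, 3405009255, 7297098, 333040816⟩,
    ⟨2009204176, 1689273825, 1205752828, 3233268713, 2117499, 333040816⟩,
    ⟨2093387364, 1841293258, 1148543222, 3169005299, 1083974, 333040816⟩,
    ⟨2141180449, 1927598825, 1083524108, 3034410404, 372472, 333040816⟩,
    ⟨2193673476, 2022391626, 1073385321, 3052536282, 384979, 333040816⟩,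
    ⟨2251770441, 2127304113, 1062270944, 3069379046, 399175, 333040816⟩,
    ⟨2316643203, 2244452450, 1050166401, 3085049069, 415465, 333040816⟩,
    ⟨2430195652, 2449507394, 1072393232, 3234223411, 850868, 333040816⟩,
    ⟨2625271938, 2801779469, 1102245716, 3454953923, 1635783, 333040816⟩,
    ⟨2997269811, 3473539554, 1168882164, 3878120026, 3206678, 333040816⟩,
    ⟨4018980757, 5318562558, 1474953917, 5378747016, 8110854, 333040816⟩]

def S : NSlice where
  T := 0
  L1 := 323
  L2 := 338
  R1 := 10000634
  R2 := 9910329
  F := 1416693528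
  Fd := 1524955907
  P := 4242920325
  Pd := 7846137220
  KL := 3420541111
  blocks := [B0, B1]

theorem ok : S.ok = true := by decide +kernel

end Pool.Agent.BVD.S323
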