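import Pool.Agent.Lib.BNC.Rec
import Pool.Agent.Lib.BVD.G338

/-!
# The record of the slice `[338 / 1024, 353 / 1024]`
-/

set_option autoImplicit false

namespace Pool.Agent.BVD.S338

open Pool.Agent.BNC

def B0 : Block where
  es := ev0
  kap := [52930, 37989, 31958, 31237, 32135, 30963]
  As := As0
  b1 := b10
  b2 := b20
  st := [
    ⟨1544838844, 840380714, 1312909130, 2741334518, 88275914, 346173560⟩,
    ⟨1744515532, 1196580032, 1397925882, 3315627576, 22113768, 346173560⟩,
    ⟨1857164419, 1397532166, 1246008439, 3121272530, 3937515, 346173560⟩]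

def B1 : Block where
  es := ev1
  kap := [52930, 26256, 11024, 5193, 2898, 1430, 1362, 1367, 1401, 1459, 1353, 1561, 2737, 7942, 15572]
  As := As1
  b1 := b11
  b2 := b21
  st := [
    ⟨1986270394, 1627841779, 1235701698, 3261132733, 3570362, 346173560⟩,
    ⟨2088256655, 1809773065, 1159688358, 3169760010, 1610367, 346173560⟩,
    ⟨2160812771, 1939204493, 1093520314, 3056262791, 695122, 346173560⟩,
    ⟨2215364397, 2036518067, 1052038394, 2986253097, 389250, 346173560⟩,
    ⟨2276014203, 2144710063, 1040158415, 3000460962, 404134, 346173560⟩,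
    ⟨2344094892, 2266157866, 1027301615, 3013592907, 421322, 346173560⟩,
    ⟨2421392096, 2404046829, 1013484583, 3025933867, 441450, 346173560⟩,
    ⟨2560266024, 2651781299, 1038868437, 3190872852, 926980, 346173560⟩]

def B2 : Block where
  es := ev2
  kap := [69397, 32157, 11880, 7718, 5262, 5036, 5215, 5215, 7942, 15572]
  As := As2
  b1 := b12
  b2 := b22
  st := [
    ⟨2739008163, 2970635888, 1023485850, 3243562327, 1043435, 346173560⟩,
    ⟨3086778631, 3591016790, 1083933751, 3605931445, 2203663, 346173560⟩,
    ⟨3995463088, 5212001129, 1318614114, 4758825222, 5572965, 346173560⟩]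

def S : NSlice where
  T := 0
  L1 := 338
  L2 := 353
  R1 := 9910329
  R2 := 9817771
  F := 1417611507
  Fd := 1493795428
  P := 4173002009
  Pd := 7572129491
  KL := 3441868324
  blocks := [B0, B1, B2]

theorem ok : S.ok = true := by decide +kernel

end Pool.Agent.BVD.S338
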