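import Pool.Agent.Lib.BNC.Rec
import Pool.Agent.Lib.BVD.G353

/-!
# The record of the slice `[353 / 1024, 369 / 1024]`
-/

set_option autoImplicit false

namespace Pool.Agent.BVD.S353

open Pool.Agent.BNC

def B0 : Block where
  es := ev0
  kap := [52930, 37989, 31958, 31237, 32135, 30963]
  As := As0
  b1 := b10
  b2 := b20
  st := [
    ⟨1549125540, 837639867, 1307875368, 2722258541, 88306790, 360684858⟩,
    ⟨1744825381, 1182468651, 1385361871, 3263082129, 22022779, 360684858⟩,
    ⟨1855758732, 1377936425, 1232503400, 3062818191, 3931260, 360684858⟩]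

def B1 : Block where
  es := ev1
  kap := [61221, 25726, 11480, 4832, 3172, 1384, 1408, 1262, 1398, 1327, 1395, 1395, 1327, 5036, 11638,
     1287]
  As := As1
  b1 := b11
  b2 := b21
  st := [
    ⟨2001724030, 1635131505, 1243283402, 3274464354, 4550927, 360684858⟩,
    ⟨2106708640, 1820117426, 1141937839, 3115120954, 1648728, 360684858⟩,
    ⟨2181902343, 1952610908, 1073676640, 2995369170, 723336, 360684858⟩,
    ⟨2238729989, 2052742866, 1030803473, 2921138160, 413574, 360684858⟩,
    ⟨2302220490, 2164614966, 1018166987, 2932787681, 429243, 360684858⟩,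
    ⟨2373898722, 2290914085, 1004572588, 2943483856, 447459, 360684858⟩,
    ⟨2455834584, 2435287445, 990053292, 2953592990, 468966, 360684858⟩,
    ⟨2550922812, 2602835655, 974697327, 2963763356, 494840, 360684858⟩]

def B2 : Block where
  es := ev2
  kap := [69397, 25922, 16270, 4832, 3103, 2769, 2900, 2737, 3115, 3028, 7762, 11636]
  As := As2
  b1 := b12
  b2 := b22
  st := [
    ⟨2663361539, 2800955945, 958694560, 2975139709, 526703, 360684858⟩,
    ⟨2799521568, 3040873858, 942430060, 2989787697, 567128, 360684858⟩,
    ⟨2969650091, 3340645240, 926687658, 3011603133, 620470, 360684858⟩,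
    ⟨3331567191, 3978353644, 995013826, 3371383056, 1498437, 360684858⟩,
    ⟨3973348682, 5109191207, 1041905229, 3721404792, 2071713, 360684858⟩]

def S : NSlice where
  T := 0
  L1 := 353
  L2 := 369
  R1 := 9817771
  R2 := 9713596
  F := 1419503017
  Fd := 1463667264
  P := 4103222291
  Pd := 7303204228
  KL := 3471591144
  blocks := [B0, B1, B2]

theorem ok : S.ok = true := by decide +kernel

end Pool.Agent.BVD.S353
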