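import Pool.Agent.Lib.BNC.Rec
import Pool.Agent.Lib.BVD.G369

/-!
# The record of the slice `[369 / 1024, 376 / 1024]`
-/

set_option autoImplicit false

namespace Pool.Agent.BVD.S369

open Pool.Agent.BNC

def B0 : Block where
  es := ev0
  kap := [79931, 79931, 79931, 79931]
  As := As0
  b1 := b10
  b2 := b20
  st := [
    ⟨1533729830, 799537625, 1268405159, 2590851431, 78304304, 358612308⟩,
    ⟨1707469665, 1101527097, 1332173929, 3051004676, 18809662, 358612308⟩]

def B1 : Block where
  es := ev1
  kap := [61221, 31380, 11638, 5120, 2878, 3042, 1262, 1398, 1327, 1395, 1395, 1327, 2900, 7832, 5193]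
  As := As1
  b1 := b11
  b2 := b21
  st := [
    ⟨1890786650, 1420163290, 1317781508, 3297343741, 10734325, 358612308⟩,
    ⟨2050740380, 1698190159, 1220067937, 3240711198, 4561651, 358612308⟩,
    ⟨2168823147, 1903438152, 1109651508, 3057392630, 1592688, 358612308⟩,
    ⟨2255211134, 2053595211, 1034937187, 2919764748, 636711, 358612308⟩,
    ⟨2321612536, 2169012174, 987686320, 2833217061, 314406, 358612308⟩,
    ⟨2397032770, 2300105407, 973479505, 2841710512, 333354, 358612308⟩,
    ⟨2483877144, 2451055745, 958390616, 2849843928, 355922, 358612308⟩,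
    ⟨2585567982, 2627811768, 942544180, 2858431679, 383369, 358612308⟩,
    ⟨2707175737, 2839186793, 926199312, 2868927165, 417638, 358612308⟩,
    ⟨2945553962, 3253528813, 967425878, 3104577670, 1066812, 358612308⟩]

def B2 : Block where
  es := ev2
  kap := [45017, 25932, 11294, 7977, 5193, 5262, 5036, 5215, 3066, 3141, 4768, 5231, 1287]
  As := As2
  b1 := b12
  b2 := b22
  st := [
    ⟨3302557739, 3874062281, 967386316, 3236969548, 1334026, 358612308⟩,
    ⟨3935714306, 4974596405, 1011414395, 3568194699, 1883041, 358612308⟩]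

def S : NSlice where
  T := 0
  L1 := 369
  L2 := 376
  R1 := 9713596
  R2 := 9665298
  F := 1415816283
  Fd := 1424818160
  P := 4026871887
  Pd := 7014151517
  KL := 3434479500
  blocks := [B0, B1, B2]

theorem ok : S.ok = true := by decide +kernel

end Pool.Agent.BVD.S369
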