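import Pool.Agent.Lib.BNC.Rec
import Pool.Agent.Lib.BVD.G376

/-!
# The record of the slice `[376 / 1024, 377 / 1024]`
-/

set_option autoImplicit false

namespace Pool.Agent.BVD.S376

open Pool.Agent.BNC

def B0 : Block where
  es := ev0
  kap := [150339, 147857, 124098]
  As := As0
  b1 := b10
  b2 := b20
  st := [
    ⟨1411293799, 583075388, 1068637351, 1951651417, 15081654, 353961561⟩,
    ⟨1518953179, 769042407, 1194376488, 2403796476, 17470282, 353961561⟩,
    ⟨1647967803, 991897721, 1252205605, 2759589285, 11567530, 353961561⟩]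

def B1 : Block where
  es := ev1
  kap := [52930, 31853, 15372, 15615, 11294, 11998, 14963, 20544]
  As := As1
  b1 := b11
  b2 := b21
  st := [
    ⟨1842475594, 1327883626, 1337126361, 3264476937, 14459093, 353961561⟩,
    ⟨1985117622, 1574278439, 1203750749, 3112996658, 4196674, 353961561⟩]

def B2 : Block where
  es := ev2
  kap := [52930, 26256, 11024, 7718, 3172, 2924, 2811, 1398, 1327, 1395, 1395, 1327, 2900, 5010, 7977]
  As := As2
  b1 := b12
  b2 := b22
  st := [
    ⟨2111133828, 1791954394, 1128930981, 3045429882, 2109884, 353961561⟩,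
    ⟨2216932717, 1974707666, 1059508449, 2946998708, 1034452, 353961561⟩,
    ⟨2313020430, 2140686195, 1011780884, 2884574865, 633704, 353961561⟩,
    ⟨2387898822, 2270028492, 961271186, 2788913932, 300572, 353961561⟩,
    ⟨2474120730, 2418965178, 946148529, 2796260625, 322614, 353961561⟩,
    ⟨2575084315, 2593366116, 930267638, 2804011776, 349420, 353961561⟩,
    ⟨2765901397, 2922976820, 962011260, 2995298937, 905829, 353961561⟩,
    ⟨3033273782, 3384826456, 951805900, 3076043947, 1089269, 353961561⟩,
    ⟨3451741707, 4107673205, 959814333, 3244228378, 1410329, 353961561⟩,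
    ⟨3915651873, 4909015279, 875147139, 3069474323, 806942, 353961561⟩]

def S : NSlice where
  T := 0
  L1 := 376
  L2 := 377
  R1 := 9665298
  R2 := 9654417
  F := 1412875105
  Fd := 1405993075
  P := 3992232927
  Pd := 6884803176
  KL := 3402815338
  blocks := [B0, B1, B2]

theorem ok : S.ok = true := by decide +kernel

end Pool.Agent.BVD.S376
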