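import Pool.Agent.Lib.BNC.Rec
import Pool.Agent.Lib.BVD.G51

/-!
# The record of the slice `[51 / 1024, 77 / 1024]`
-/

set_option autoImplicit false

namespace Pool.Agent.BVD.S51

open Pool.Agent.BNC

def B0 : Block where
  es := ev0
  kap := [91019, 77876, 81860, 69397]
  As := As0
  b1 := b10
  b2 := b20
  st := [
    ⟨1556280326, 1115674334, 1554225611, 3782628288, 104249268, 83920452⟩,
    ⟨1803170649, 1686507949, 1715122854, 4923436308, 19602399, 83920452⟩,
    ⟨1913946586, 1942632320, 1565032005, 4742008600, 3133249, 83920452⟩]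

def B1 : Block where
  es := ev1
  kap := [11636, 11121, 8304, 7894, 4768, 5231, 5120, 5231, 4768, 7894, 8304, 11121, 11636]
  As := As1
  b1 := b11
  b2 := b21
  st := [
    ⟨2005590917, 2154522620, 1547559371, 4872516262, 1973631, 83920452⟩,
    ⟨2067149209, 2296851171, 1504267879, 4847112628, 1061322, 83920452⟩,
    ⟨2134857603, 2453399339, 1510708362, 4982950154, 1098938, 83920452⟩,
    ⟨2184066230, 2567174306, 1479705392, 4958227802, 776658, 83920452⟩,
    ⟨2294607683, 2822756526, 1556564945, 5386242572, 1733936, 83920452⟩,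
    ⟨2544140406, 3399699617, 1718819658, 6312489502, 5155597, 83920452⟩]

def B2 : Block where
  es := ev2
  kap := [162989, 148837, 112402]
  As := As2
  b1 := b12
  b2 := b22
  st := [
    ⟨3169821423, 4846332890, 2108976870, 8557796915, 15257046, 83920452⟩,
    ⟨4629045755, 8220196594, 2651252189, 12067367458, 20642875, 83920452⟩]

def S : NSlice where
  T := 0
  L1 := 51
  L2 := 77
  R1 := 11560009
  R2 := 11409909
  F := 1485776142
  Fd := 2366993840
  P := 5832021551
  Pd := 15301422153
  KL := 3527371858
  blocks := [B0, B1, B2]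

theorem ok : S.ok = true := by decide +kernel

end Pool.Agent.BVD.S51
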