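import Pool.Agent.Lib.BNC.Rec
import Pool.Agent.Lib.BVD.G77

/-!
# The record of the slice `[77 / 1024, 102 / 1024]`
-/

set_option autoImplicit false

namespace Pool.Agent.BVD.S77

open Pool.Agent.BNC

def B0 : Block where
  es := ev0
  kap := [150339, 147857, 124098]
  As := As0
  b1 := b10
  b2 := b20
  st := [
    ⟨1539885689, 1048823748, 1501894340, 3547789645, 97928965, 110223042⟩,
    ⟨1762034122, 1548657748, 1629337085, 4493396832, 16842420, 110223042⟩,
    ⟨1804378469, 1643932533, 1409664525, 3978297895, 866398, 110223042⟩]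

def B1 : Block where
  es := ev1
  kap := [20544, 14963, 8304, 7942, 5243, 4832, 5393, 5010, 7959, 11543, 15261, 7977]
  As := As1
  b1 := b11
  b2 := b21
  st := [
    ⟨1950053372, 1971701081, 1581639050, 4780032971, 4945849, 110223042⟩,
    ⟨2026669987, 2144088474, 1481143323, 4615054959, 1399405, 110223042⟩,
    ⟨2068594072, 2238417671, 1429245290, 4522406927, 688041, 110223042⟩,
    ⟨2113364495, 2339151127, 1430313968, 4596564310, 699003, 110223042⟩,
    ⟨2161389844, 2447208169, 1430322170, 4669252997, 711022, 110223042⟩,
    ⟨2269299907, 2690005821, 1502651115, 5065106858, 1643502, 110223042⟩,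
    ⟨2512990765, 3238310281, 1655213252, 5921121559, 4966657, 110223042⟩]

def B2 : Block where
  es := ev2
  kap := [162989, 135797, 124098]
  As := As2
  b1 := b12
  b2 := b22
  st := [
    ⟨2957725549, 4238963595, 1812349609, 7007208890, 8632227, 110223042⟩,
    ⟨4550749453, 7823267561, 2894120626, 12844780507, 30748755, 110223042⟩]

def S : NSlice where
  T := 0
  L1 := 77
  L2 := 102
  R1 := 11409909
  R2 := 11266039
  F := 1471910684
  Fd := 2252300237
  P := 5638897684
  Pd := 14269838848
  KL := 3477446566
  blocks := [B0, B1, B2]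

theorem ok : S.ok = true := by decide +kernel

end Pool.Agent.BVD.S77
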