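import Pool.Agent.Lib.BVD.LowS
import Pool.Agent.Lib.BNC.Sound
import Pool.Agent.Lib.BL0.Main
import Pool.Agent.Lib.BVD.P0
import Pool.Agent.Lib.BVD.R0
import Pool.Agent.Lib.BVD.P26
import Pool.Agent.Lib.BVD.R26
import Pool.Agent.Lib.BVD.P51
import Pool.Agent.Lib.BVD.R51
import Pool.Agent.Lib.BVD.P77
import Pool.Agent.Lib.BVD.R77
import Pool.Agent.Lib.BVD.P102
import Pool.Agent.Lib.BVD.R102
import Pool.Agent.Lib.BVD.P128
import Pool.Agent.Lib.BVD.R128
import Pool.Agent.Lib.BVD.P154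
import Pool.Agent.Lib.BVD.R154
import Pool.Agent.Lib.BVD.P179
import Pool.Agent.Lib.BVD.R179
import Pool.Agent.Lib.BVD.P205
import Pool.Agent.Lib.BVD.R205
import Pool.Agent.Lib.BVD.P230
import Pool.Agent.Lib.BVD.R230
import Pool.Agent.Lib.BVD.P256
import Pool.Agent.Lib.BVD.R256
import Pool.Agent.Lib.BVD.P282
import Pool.Agent.Lib.BVD.R282
import Pool.Agent.Lib.BVD.P307
import Pool.Agent.Lib.BVD.R307
import Pool.Agent.Lib.BVD.P323
import Pool.Agent.Lib.BVD.R323
import Pool.Agent.Lib.BVD.P338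
import Pool.Agent.Lib.BVD.R338
import Pool.Agent.Lib.BVD.P353
import Pool.Agent.Lib.BVD.R353
import Pool.Agent.Lib.BVD.P369
import Pool.Agent.Lib.BVD.R369
import Pool.Agent.Lib.BVD.P376
import Pool.Agent.Lib.BVD.R376

/-!
# The lower bound for the best constant

`lower`: the best constant `BB l` is at least `RR l - 1 / 2000` for `0 < l ≤ 3672 / 10000`; together
with `BB l ≤ RR l` this determines it up to `1 / 2000`. The hypotheses are the zones of the
reduction; the bounds for the family come from the vertex checks at `t0 = 0` and radius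
`RR l - 8388 / 2 ^ 24`.
-/

set_option autoImplicit false

open Pool.Agent.P187f6b Pool.Agent.P187s Pool.Agent.P187w Pool.Agent.BMM Pool.Agent.BNC

namespace Pool.Agent.BVD

/-- The conclusion of the reduction. -/
def HRED (l : ℝ) : Prop := ∀ f ∈ FClass l, maj l f (BB l) = 1 →
  ∃ (a : ℝ) (η ω : ℂ), 0 ≤ a ∧ a ≤ 1 ∧ ‖η‖ = 1 ∧ ‖ω‖ = 1 ∧
    (1 < maj l (GG l a η) (BB l) ∨ ∀ z : ℂ, ‖z‖ < 1 → f z = GG l a η (ω * z))

/-- Slice 0. -/
theorem low0 : ∀ l : ℝ, 0 < l → l ≤ 26 / 1024 →
    LEV0 l (chord 0 26 11863619 11713037 l) (40 / 1024) → HRED l →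
      chord 0 26 11863619 11713037 l - 1 / 2000 ≤ BB l := by
  intro l h0 h1 hlev hred
  exact slice_low S0.S S0.ok
    (List.forall_mem_cons.2 ⟨rows_of_blk S0.t10, (List.forall_mem_cons.2 ⟨rows_of_blk S0.t11, (List.forall_mem_cons.2 ⟨rows_of_blk S0.t12, (List.forall_mem_nil _)⟩)⟩)⟩)
    (List.forall_mem_cons.2 ⟨rows_of_blk S0.t20, (List.forall_mem_cons.2 ⟨rows_of_blk S0.t21, (List.forall_mem_cons.2 ⟨rows_of_blk S0.t22, (List.forall_mem_nil _)⟩)⟩)⟩)
    (by norm_num [S0.S]) (by norm_num [S0.S]) (by norm_num [S0.S]) (by norm_num [S0.S])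
    (by norm_num [S0.S]) (by norm_num) (by norm_num) (by norm_num) (by norm_num) (by norm_num)
    (by norm_num) (by linarith) (by linarith) h1 hlev hred

/-- Slice 1. -/
theorem low1 : ∀ l : ℝ, 26 / 1024 < l → l ≤ 51 / 1024 →
    LEV0 l (chord 26 51 11713037 11568397 l) (40 / 1024) → HRED l →
      chord 26 51 11713037 11568397 l - 1 / 2000 ≤ BB l := by
  intro l h0 h1 hlev hred
  exact slice_low S26.S S26.ok
    (List.forall_mem_cons.2 ⟨rows_of_blk S26.t10, (List.forall_mem_cons.2 ⟨rows_of_blk S26.t11, (List.forall_mem_cons.2 ⟨rows_of_blk S26.t12, (List.forall_mem_nil _)⟩)⟩)⟩)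
    (List.forall_mem_cons.2 ⟨rows_of_blk S26.t20, (List.forall_mem_cons.2 ⟨rows_of_blk S26.t21, (List.forall_mem_cons.2 ⟨rows_of_blk S26.t22, (List.forall_mem_nil _)⟩)⟩)⟩)
    (by norm_num [S26.S]) (by norm_num [S26.S]) (by norm_num [S26.S]) (by norm_num [S26.S])
    (by norm_num [S26.S]) (by norm_num) (by norm_num) (by norm_num) (by norm_num) (by norm_num)
    (by norm_num) (by linarith) (by linarith) h1 hlev hred

/-- Slice 2. -/
theorem low2 : ∀ l : ℝ, 51 / 1024 < l → l ≤ 77 / 1024 →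
    LEV0 l (chord 51 77 11568397 11418297 l) (40 / 1024) → HRED l →
      chord 51 77 11568397 11418297 l - 1 / 2000 ≤ BB l := by
  intro l h0 h1 hlev hred
  exact slice_low S51.S S51.ok
    (List.forall_mem_cons.2 ⟨rows_of_blk S51.t10, (List.forall_mem_cons.2 ⟨rows_of_blk S51.t11, (List.forall_mem_cons.2 ⟨rows_of_blk S51.t12, (List.forall_mem_nil _)⟩)⟩)⟩)
    (List.forall_mem_cons.2 ⟨rows_of_blk S51.t20, (List.forall_mem_cons.2 ⟨rows_of_blk S51.t21, (List.forall_mem_cons.2 ⟨rows_of_blk S51.t22, (List.forall_mem_nil _)⟩)⟩)⟩)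
    (by norm_num [S51.S]) (by norm_num [S51.S]) (by norm_num [S51.S]) (by norm_num [S51.S])
    (by norm_num [S51.S]) (by norm_num) (by norm_num) (by norm_num) (by norm_num) (by norm_num)
    (by norm_num) (by linarith) (by linarith) h1 hlev hred

/-- Slice 3. -/
theorem low3 : ∀ l : ℝ, 77 / 1024 < l → l ≤ 102 / 1024 →
    LEV0 l (chord 77 102 11418297 11274427 l) (40 / 1024) → HRED l →
      chord 77 102 11418297 11274427 l - 1 / 2000 ≤ BB l := by
  intro l h0 h1 hlev hred
  exact slice_low S77.S S77.ok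
    (List.forall_mem_cons.2 ⟨rows_of_blk S77.t10, (List.forall_mem_cons.2 ⟨rows_of_blk S77.t11, (List.forall_mem_cons.2 ⟨rows_of_blk S77.t12, (List.forall_mem_nil _)⟩)⟩)⟩)
    (List.forall_mem_cons.2 ⟨rows_of_blk S77.t20, (List.forall_mem_cons.2 ⟨rows_of_blk S77.t21, (List.forall_mem_cons.2 ⟨rows_of_blk S77.t22, (List.forall_mem_nil _)⟩)⟩)⟩)
    (by norm_num [S77.S]) (by norm_num [S77.S]) (by norm_num [S77.S]) (by norm_num [S77.S])
    (by norm_num [S77.S]) (by norm_num) (by norm_num) (by norm_num) (by norm_num) (by norm_num)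
    (by norm_num) (by linarith) (by linarith) h1 hlev hred

/-- Slice 4. -/
theorem low4 : ∀ l : ℝ, 102 / 1024 < l → l ≤ 128 / 1024 →
    LEV0 l (chord 102 128 11274427 11125386 l) (40 / 1024) → HRED l →
      chord 102 128 11274427 11125386 l - 1 / 2000 ≤ BB l := by
  intro l h0 h1 hlev hred
  exact slice_low S102.S S102.ok
    (List.forall_mem_cons.2 ⟨rows_of_blk S102.t10, (List.forall_mem_cons.2 ⟨rows_of_blk S102.t11, (List.forall_mem_cons.2 ⟨rows_of_blk S102.t12, (List.forall_mem_nil _)⟩)⟩)⟩)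
    (List.forall_mem_cons.2 ⟨rows_of_blk S102.t20, (List.forall_mem_cons.2 ⟨rows_of_blk S102.t21, (List.forall_mem_cons.2 ⟨rows_of_blk S102.t22, (List.forall_mem_nil _)⟩)⟩)⟩)
    (by norm_num [S102.S]) (by norm_num [S102.S]) (by norm_num [S102.S]) (by norm_num [S102.S])
    (by norm_num [S102.S]) (by norm_num) (by norm_num) (by norm_num) (by norm_num) (by norm_num)
    (by norm_num) (by linarith) (by linarith) h1 hlev hred

/-- Slice 5. -/
theorem low5 : ∀ l : ℝ, 128 / 1024 < l → l ≤ 154 / 1024 →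
    LEV0 l (chord 128 154 11125386 10976978 l) (40 / 1024) → HRED l →
      chord 128 154 11125386 10976978 l - 1 / 2000 ≤ BB l := by
  intro l h0 h1 hlev hred
  exact slice_low S128.S S128.ok
    (List.forall_mem_cons.2 ⟨rows_of_blk S128.t10, (List.forall_mem_cons.2 ⟨rows_of_blk S128.t11, (List.forall_mem_cons.2 ⟨rows_of_blk S128.t12, (List.forall_mem_nil _)⟩)⟩)⟩)
    (List.forall_mem_cons.2 ⟨rows_of_blk S128.t20, (List.forall_mem_cons.2 ⟨rows_of_blk S128.t21, (List.forall_mem_cons.2 ⟨rows_of_blk S128.t22, (List.forall_mem_nil _)⟩)⟩)⟩)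
    (by norm_num [S128.S]) (by norm_num [S128.S]) (by norm_num [S128.S]) (by norm_num [S128.S])
    (by norm_num [S128.S]) (by norm_num) (by norm_num) (by norm_num) (by norm_num) (by norm_num)
    (by norm_num) (by linarith) (by linarith) h1 hlev hred

/-- Slice 6. -/
theorem low6 : ∀ l : ℝ, 154 / 1024 < l → l ≤ 179 / 1024 →
    LEV0 l (chord 154 179 10976978 10834818 l) (40 / 1024) → HRED l →
      chord 154 179 10976978 10834818 l - 1 / 2000 ≤ BB l := by
  intro l h0 h1 hlev hred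
  exact slice_low S154.S S154.ok
    (List.forall_mem_cons.2 ⟨rows_of_blk S154.t10, (List.forall_mem_cons.2 ⟨rows_of_blk S154.t11, (List.forall_mem_cons.2 ⟨rows_of_blk S154.t12, (List.forall_mem_nil _)⟩)⟩)⟩)
    (List.forall_mem_cons.2 ⟨rows_of_blk S154.t20, (List.forall_mem_cons.2 ⟨rows_of_blk S154.t21, (List.forall_mem_cons.2 ⟨rows_of_blk S154.t22, (List.forall_mem_nil _)⟩)⟩)⟩)
    (by norm_num [S154.S]) (by norm_num [S154.S]) (by norm_num [S154.S]) (by norm_num [S154.S])
    (by norm_num [S154.S]) (by norm_num) (by norm_num) (by norm_num) (by norm_num) (by norm_num)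
    (by norm_num) (by linarith) (by linarith) h1 hlev hred

/-- Slice 7. -/
theorem low7 : ∀ l : ℝ, 179 / 1024 < l → l ≤ 205 / 1024 →
    LEV0 l (chord 179 205 10834818 10687355 l) (40 / 1024) → HRED l →
      chord 179 205 10834818 10687355 l - 1 / 2000 ≤ BB l := by
  intro l h0 h1 hlev hred
  exact slice_low S179.S S179.ok
    (List.forall_mem_cons.2 ⟨rows_of_blk S179.t10, (List.forall_mem_cons.2 ⟨rows_of_blk S179.t11, (List.forall_mem_cons.2 ⟨rows_of_blk S179.t12, (List.forall_mem_nil _)⟩)⟩)⟩)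
    (List.forall_mem_cons.2 ⟨rows_of_blk S179.t20, (List.forall_mem_cons.2 ⟨rows_of_blk S179.t21, (List.forall_mem_cons.2 ⟨rows_of_blk S179.t22, (List.forall_mem_nil _)⟩)⟩)⟩)
    (by norm_num [S179.S]) (by norm_num [S179.S]) (by norm_num [S179.S]) (by norm_num [S179.S])
    (by norm_num [S179.S]) (by norm_num) (by norm_num) (by norm_num) (by norm_num) (by norm_num)
    (by norm_num) (by linarith) (by linarith) h1 hlev hred

/-- Slice 8. -/
theorem low8 : ∀ l : ℝ, 205 / 1024 < l → l ≤ 230 / 1024 →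
    LEV0 l (chord 205 230 10687355 10545629 l) (40 / 1024) → HRED l →
      chord 205 230 10687355 10545629 l - 1 / 2000 ≤ BB l := by
  intro l h0 h1 hlev hred
  exact slice_low S205.S S205.ok
    (List.forall_mem_cons.2 ⟨rows_of_blk S205.t10, (List.forall_mem_cons.2 ⟨rows_of_blk S205.t11, (List.forall_mem_cons.2 ⟨rows_of_blk S205.t12, (List.forall_mem_nil _)⟩)⟩)⟩)
    (List.forall_mem_cons.2 ⟨rows_of_blk S205.t20, (List.forall_mem_cons.2 ⟨rows_of_blk S205.t21, (List.forall_mem_cons.2 ⟨rows_of_blk S205.t22, (List.forall_mem_nil _)⟩)⟩)⟩)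
    (by norm_num [S205.S]) (by norm_num [S205.S]) (by norm_num [S205.S]) (by norm_num [S205.S])
    (by norm_num [S205.S]) (by norm_num) (by norm_num) (by norm_num) (by norm_num) (by norm_num)
    (by norm_num) (by linarith) (by linarith) h1 hlev hred

/-- Slice 9. -/
theorem low9 : ∀ l : ℝ, 230 / 1024 < l → l ≤ 256 / 1024 →
    LEV0 l (chord 230 256 10545629 10397833 l) (40 / 1024) → HRED l →
      chord 230 256 10545629 10397833 l - 1 / 2000 ≤ BB l := by
  intro l h0 h1 hlev hred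
  exact slice_low S230.S S230.ok
    (List.forall_mem_cons.2 ⟨rows_of_blk S230.t10, (List.forall_mem_cons.2 ⟨rows_of_blk S230.t11, (List.forall_mem_cons.2 ⟨rows_of_blk S230.t12, (List.forall_mem_nil _)⟩)⟩)⟩)
    (List.forall_mem_cons.2 ⟨rows_of_blk S230.t20, (List.forall_mem_cons.2 ⟨rows_of_blk S230.t21, (List.forall_mem_cons.2 ⟨rows_of_blk S230.t22, (List.forall_mem_nil _)⟩)⟩)⟩)
    (by norm_num [S230.S]) (by norm_num [S230.S]) (by norm_num [S230.S]) (by norm_num [S230.S])
    (by norm_num [S230.S]) (by norm_num) (by norm_num) (by norm_num) (by norm_num) (by norm_num)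
    (by norm_num) (by linarith) (by linarith) h1 hlev hred

/-- Slice 10. -/
theorem low10 : ∀ l : ℝ, 256 / 1024 < l → l ≤ 282 / 1024 →
    LEV0 l (chord 256 282 10397833 10249024 l) (40 / 1024) → HRED l →
      chord 256 282 10397833 10249024 l - 1 / 2000 ≤ BB l := by
  intro l h0 h1 hlev hred
  exact slice_low S256.S S256.ok
    (List.forall_mem_cons.2 ⟨rows_of_blk S256.t10, (List.forall_mem_cons.2 ⟨rows_of_blk S256.t11, (List.forall_mem_cons.2 ⟨rows_of_blk S256.t12, (List.forall_mem_nil _)⟩)⟩)⟩)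
    (List.forall_mem_cons.2 ⟨rows_of_blk S256.t20, (List.forall_mem_cons.2 ⟨rows_of_blk S256.t21, (List.forall_mem_cons.2 ⟨rows_of_blk S256.t22, (List.forall_mem_nil _)⟩)⟩)⟩)
    (by norm_num [S256.S]) (by norm_num [S256.S]) (by norm_num [S256.S]) (by norm_num [S256.S])
    (by norm_num [S256.S]) (by norm_num) (by norm_num) (by norm_num) (by norm_num) (by norm_num)
    (by norm_num) (by linarith) (by linarith) h1 hlev hred

/-- Slice 11. -/
theorem low11 : ∀ l : ℝ, 282 / 1024 < l → l ≤ 307 / 1024 →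
    LEV0 l (chord 282 307 10249024 10103747 l) (40 / 1024) → HRED l →
      chord 282 307 10249024 10103747 l - 1 / 2000 ≤ BB l := by
  intro l h0 h1 hlev hred
  exact slice_low S282.S S282.ok
    (List.forall_mem_cons.2 ⟨rows_of_blk S282.t10, (List.forall_mem_cons.2 ⟨rows_of_blk S282.t11, (List.forall_mem_cons.2 ⟨rows_of_blk S282.t12, (List.forall_mem_nil _)⟩)⟩)⟩)
    (List.forall_mem_cons.2 ⟨rows_of_blk S282.t20, (List.forall_mem_cons.2 ⟨rows_of_blk S282.t21, (List.forall_mem_cons.2 ⟨rows_of_blk S282.t22, (List.forall_mem_nil _)⟩)⟩)⟩)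
    (by norm_num [S282.S]) (by norm_num [S282.S]) (by norm_num [S282.S]) (by norm_num [S282.S])
    (by norm_num [S282.S]) (by norm_num) (by norm_num) (by norm_num) (by norm_num) (by norm_num)
    (by norm_num) (by linarith) (by linarith) h1 hlev hred

/-- Slice 12. -/
theorem low12 : ∀ l : ℝ, 307 / 1024 < l → l ≤ 323 / 1024 →
    LEV0 l (chord 307 323 10103747 10009022 l) (40 / 1024) → HRED l →
      chord 307 323 10103747 10009022 l - 1 / 2000 ≤ BB l := by
  intro l h0 h1 hlev hred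
  exact slice_low S307.S S307.ok
    (List.forall_mem_cons.2 ⟨rows_of_blk S307.t10, (List.forall_mem_cons.2 ⟨rows_of_blk S307.t11, (List.forall_mem_cons.2 ⟨rows_of_blk S307.t12, (List.forall_mem_nil _)⟩)⟩)⟩)
    (List.forall_mem_cons.2 ⟨rows_of_blk S307.t20, (List.forall_mem_cons.2 ⟨rows_of_blk S307.t21, (List.forall_mem_cons.2 ⟨rows_of_blk S307.t22, (List.forall_mem_nil _)⟩)⟩)⟩)
    (by norm_num [S307.S]) (by norm_num [S307.S]) (by norm_num [S307.S]) (by norm_num [S307.S])
    (by norm_num [S307.S]) (by norm_num) (by norm_num) (by norm_num) (by norm_num) (by norm_num)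
    (by norm_num) (by linarith) (by linarith) h1 hlev hred

/-- Slice 13. -/
theorem low13 : ∀ l : ℝ, 323 / 1024 < l → l ≤ 338 / 1024 →
    LEV0 l (chord 323 338 10009022 9918717 l) (40 / 1024) → HRED l →
      chord 323 338 10009022 9918717 l - 1 / 2000 ≤ BB l := by
  intro l h0 h1 hlev hred
  exact slice_low S323.S S323.ok
    (List.forall_mem_cons.2 ⟨rows_of_blk S323.t10, (List.forall_mem_cons.2 ⟨rows_of_blk S323.t11, (List.forall_mem_nil _)⟩)⟩)
    (List.forall_mem_cons.2 ⟨rows_of_blk S323.t20, (List.forall_mem_cons.2 ⟨rows_of_blk S323.t21, (List.forall_mem_nil _)⟩)⟩)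
    (by norm_num [S323.S]) (by norm_num [S323.S]) (by norm_num [S323.S]) (by norm_num [S323.S])
    (by norm_num [S323.S]) (by norm_num) (by norm_num) (by norm_num) (by norm_num) (by norm_num)
    (by norm_num) (by linarith) (by linarith) h1 hlev hred

/-- Slice 14. -/
theorem low14 : ∀ l : ℝ, 338 / 1024 < l → l ≤ 353 / 1024 →
    LEV0 l (chord 338 353 9918717 9826159 l) (40 / 1024) → HRED l →
      chord 338 353 9918717 9826159 l - 1 / 2000 ≤ BB l := by
  intro l h0 h1 hlev hred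
  exact slice_low S338.S S338.ok
    (List.forall_mem_cons.2 ⟨rows_of_blk S338.t10, (List.forall_mem_cons.2 ⟨rows_of_blk S338.t11, (List.forall_mem_cons.2 ⟨rows_of_blk S338.t12, (List.forall_mem_nil _)⟩)⟩)⟩)
    (List.forall_mem_cons.2 ⟨rows_of_blk S338.t20, (List.forall_mem_cons.2 ⟨rows_of_blk S338.t21, (List.forall_mem_cons.2 ⟨rows_of_blk S338.t22, (List.forall_mem_nil _)⟩)⟩)⟩)
    (by norm_num [S338.S]) (by norm_num [S338.S]) (by norm_num [S338.S]) (by norm_num [S338.S])
    (by norm_num [S338.S]) (by norm_num) (by norm_num) (by norm_num) (by norm_num) (by norm_num)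
    (by norm_num) (by linarith) (by linarith) h1 hlev hred

/-- Slice 15. -/
theorem low15 : ∀ l : ℝ, 353 / 1024 < l → l ≤ 369 / 1024 →
    LEV0 l (chord 353 369 9826159 9721984 l) (40 / 1024) → HRED l →
      chord 353 369 9826159 9721984 l - 1 / 2000 ≤ BB l := by
  intro l h0 h1 hlev hred
  exact slice_low S353.S S353.ok
    (List.forall_mem_cons.2 ⟨rows_of_blk S353.t10, (List.forall_mem_cons.2 ⟨rows_of_blk S353.t11, (List.forall_mem_cons.2 ⟨rows_of_blk S353.t12, (List.forall_mem_nil _)⟩)⟩)⟩)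
    (List.forall_mem_cons.2 ⟨rows_of_blk S353.t20, (List.forall_mem_cons.2 ⟨rows_of_blk S353.t21, (List.forall_mem_cons.2 ⟨rows_of_blk S353.t22, (List.forall_mem_nil _)⟩)⟩)⟩)
    (by norm_num [S353.S]) (by norm_num [S353.S]) (by norm_num [S353.S]) (by norm_num [S353.S])
    (by norm_num [S353.S]) (by norm_num) (by norm_num) (by norm_num) (by norm_num) (by norm_num)
    (by norm_num) (by linarith) (by linarith) h1 hlev hred

/-- Slice 16. -/
theorem low16 : ∀ l : ℝ, 369 / 1024 < l → l ≤ 376 / 1024 →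
    LEV0 l (chord 369 376 9721984 9673686 l) (40 / 1024) → HRED l →
      chord 369 376 9721984 9673686 l - 1 / 2000 ≤ BB l := by
  intro l h0 h1 hlev hred
  exact slice_low S369.S S369.ok
    (List.forall_mem_cons.2 ⟨rows_of_blk S369.t10, (List.forall_mem_cons.2 ⟨rows_of_blk S369.t11, (List.forall_mem_cons.2 ⟨rows_of_blk S369.t12, (List.forall_mem_nil _)⟩)⟩)⟩)
    (List.forall_mem_cons.2 ⟨rows_of_blk S369.t20, (List.forall_mem_cons.2 ⟨rows_of_blk S369.t21, (List.forall_mem_cons.2 ⟨rows_of_blk S369.t22, (List.forall_mem_nil _)⟩)⟩)⟩)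
    (by norm_num [S369.S]) (by norm_num [S369.S]) (by norm_num [S369.S]) (by norm_num [S369.S])
    (by norm_num [S369.S]) (by norm_num) (by norm_num) (by norm_num) (by norm_num) (by norm_num)
    (by norm_num) (by linarith) (by linarith) h1 hlev hred

/-- Slice 17. -/
theorem low17 : ∀ l : ℝ, 376 / 1024 < l → l ≤ 377 / 1024 →
    LEV0 l (chord 376 377 9673686 9662805 l) (40 / 1024) → HRED l →
      chord 376 377 9673686 9662805 l - 1 / 2000 ≤ BB l := by
  intro l h0 h1 hlev hred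
  exact slice_low S376.S S376.ok
    (List.forall_mem_cons.2 ⟨rows_of_blk S376.t10, (List.forall_mem_cons.2 ⟨rows_of_blk S376.t11, (List.forall_mem_cons.2 ⟨rows_of_blk S376.t12, (List.forall_mem_nil _)⟩)⟩)⟩)
    (List.forall_mem_cons.2 ⟨rows_of_blk S376.t20, (List.forall_mem_cons.2 ⟨rows_of_blk S376.t21, (List.forall_mem_cons.2 ⟨rows_of_blk S376.t22, (List.forall_mem_nil _)⟩)⟩)⟩)
    (by norm_num [S376.S]) (by norm_num [S376.S]) (by norm_num [S376.S]) (by norm_num [S376.S])
    (by norm_num [S376.S]) (by norm_num) (by norm_num) (by norm_num) (by norm_num) (by norm_num)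
    (by norm_num) (by linarith) (by linarith) h1 hlev hred

/-- The lower bound on `(0, 377 / 1024]`. -/
theorem low_of {l : ℝ} (hpos : 0 < l) (hend : l ≤ 377 / 1024)
    (hlev : LEV0 l (RR l) (40 / 1024)) (hred : HRED l) : RR l - 1 / 2000 ≤ BB l := by
  rcases le_or_gt l (26 / 1024) with h | g0
  · rw [RR_0 (by linarith) h] at hlev ⊢; exact low0 l hpos h hlev hred
  rcases le_or_gt l (51 / 1024) with h | g1
  · rw [RR_1 g0 h] at hlev ⊢; exact low1 l g0 h hlev hred
  rcases le_or_gt l (77 / 1024) with h | g2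
  · rw [RR_2 g1 h] at hlev ⊢; exact low2 l g1 h hlev hred
  rcases le_or_gt l (102 / 1024) with h | g3
  · rw [RR_3 g2 h] at hlev ⊢; exact low3 l g2 h hlev hred
  rcases le_or_gt l (128 / 1024) with h | g4
  · rw [RR_4 g3 h] at hlev ⊢; exact low4 l g3 h hlev hred
  rcases le_or_gt l (154 / 1024) with h | g5
  · rw [RR_5 g4 h] at hlev ⊢; exact low5 l g4 h hlev hred
  rcases le_or_gt l (179 / 1024) with h | g6
  · rw [RR_6 g5 h] at hlev ⊢; exact low6 l g5 h hlev hred
  rcases le_or_gt l (205 / 1024) with h | g7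
  · rw [RR_7 g6 h] at hlev ⊢; exact low7 l g6 h hlev hred
  rcases le_or_gt l (230 / 1024) with h | g8
  · rw [RR_8 g7 h] at hlev ⊢; exact low8 l g7 h hlev hred
  rcases le_or_gt l (256 / 1024) with h | g9
  · rw [RR_9 g8 h] at hlev ⊢; exact low9 l g8 h hlev hred
  rcases le_or_gt l (282 / 1024) with h | g10
  · rw [RR_10 g9 h] at hlev ⊢; exact low10 l g9 h hlev hred
  rcases le_or_gt l (307 / 1024) with h | g11
  · rw [RR_11 g10 h] at hlev ⊢; exact low11 l g10 h hlev hred
  rcases le_or_gt l (323 / 1024) with h | g12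
  · rw [RR_12 g11 h] at hlev ⊢; exact low12 l g11 h hlev hred
  rcases le_or_gt l (338 / 1024) with h | g13
  · rw [RR_13 g12 h] at hlev ⊢; exact low13 l g12 h hlev hred
  rcases le_or_gt l (353 / 1024) with h | g14
  · rw [RR_14 g13 h] at hlev ⊢; exact low14 l g13 h hlev hred
  rcases le_or_gt l (369 / 1024) with h | g15
  · rw [RR_15 g14 h] at hlev ⊢; exact low15 l g14 h hlev hred
  rcases le_or_gt l (376 / 1024) with h | g16
  · rw [RR_16 g15 h] at hlev ⊢; exact low16 l g15 h hlev hred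
  rw [RR_17 g16 hend] at hlev ⊢
  exact low17 l g16 hend hlev hred

/-- The lower bound from the two zones of the reduction (`LEV0` and `BB ≤ RR` are theorems). -/
theorem lower_of {l s1 : ℝ} (h0 : 0 < l) (h1 : l ≤ 3672 / 10000)
    (hfar : FAR l (RR l) s1 (40 / 1024)) (hnear : NEAR l (RR l) s1 (40 / 1024)) :
    RR l - 1 / 2000 ≤ BB l := by
  have hlev := Pool.Agent.BL0.lev0_all h0 h1
  exact low_of h0 (by linarith) hlev
    (hred_of_zones h0 (by linarith) (BB_le_RR h0 (by linarith)) hfar hnear hlev)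

end Pool.Agent.BVD
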