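import Pool.Agent.Lib.BVD.Fam
import Pool.Agent.Lib.BNC.Slice
import Pool.Agent.Lib.BMM.Fin

/-!
# The lower bound for the best constant on one slice
-/

set_option autoImplicit false

open Pool.Agent.P187f6b Pool.Agent.P187s Pool.Agent.P187w Pool.Agent.BMM Pool.Agent.BNC

namespace Pool.Agent.BVD

/-- The chord is below `1 / (1 + 2 l)`. -/
lemma chord_le {n1 n2 m1 m2 l : ℝ} (hn0 : 0 ≤ n1) (hn : n1 < n2) (hm0 : 0 ≤ m2) (hm : m2 ≤ m1)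
    (c1 : (512 + n1) * m1 ≤ 512 * 2 ^ 24)
    (c2 : (512 + n2) * m2 + (m1 - m2) * (n2 - n1) ≤ 512 * 2 ^ 24)
    (hl1 : n1 / 1024 ≤ l) (hl2 : l ≤ n2 / 1024) :
    0 ≤ chord n1 n2 m1 m2 l ∧ chord n1 n2 m1 m2 l ≤ 1 / (1 + 2 * l) := by
  have hd : 0 < n2 - n1 := by linarith
  set τ : ℝ := (1024 * l - n1) / (n2 - n1) with hτ
  have hτ0 : 0 ≤ τ := by rw [hτ]; apply div_nonneg <;> linarith
  have hτ1 : τ ≤ 1 := by rw [hτ, div_le_one hd]; linarith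
  have hl : l = (n1 + τ * (n2 - n1)) / 1024 := by rw [hτ]; field_simp; ring
  have hc : chord n1 n2 m1 m2 l = (m1 + (m2 - m1) * τ) / 2 ^ 24 := rfl
  have hl0 : 0 ≤ l := le_trans (by positivity) hl1
  rw [hc]
  refine ⟨?_, ?_⟩
  · apply div_nonneg _ (by positivity)
    nlinarith [mul_nonneg hτ0 (sub_nonneg.2 hm), mul_nonneg (sub_nonneg.2 hτ1) (sub_nonneg.2 hm)]
  · rw [div_le_div_iff₀ (by positivity) (by linarith), hl]
    have k1 : 0 ≤ τ ^ 2 * ((n2 - n1) * (m1 - m2)) := by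
      have := mul_nonneg hd.le (sub_nonneg.2 hm)
      positivity
    have k2 : 0 ≤ (1 - τ) * (512 * 2 ^ 24 - (512 + n1) * m1) :=
      mul_nonneg (sub_nonneg.2 hτ1) (sub_nonneg.2 c1)
    have k3 : 0 ≤ τ * (512 * 2 ^ 24 - ((512 + n2) * m2 + (m1 - m2) * (n2 - n1))) :=
      mul_nonneg hτ0 (sub_nonneg.2 c2)
    linarith

lemma chord_sub {n1 n2 m1 m2 d l : ℝ} :
    chord n1 n2 (m1 - d) (m2 - d) l = chord n1 n2 m1 m2 l - d / 2 ^ 24 := by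
  unfold chord
  ring

/-- The lower bound on one slice. -/
theorem slice_low (S : NSlice) (hok : S.ok = true)
    (h1 : ∀ B ∈ S.blocks, RowsOK S.L1 S.R1 S.T B.es B.As B.b1)
    (h2 : ∀ B ∈ S.blocks, RowsOK S.L2 S.R2 S.T B.es B.As B.b2) {n1 n2 M1 M2 : ℝ}
    (e1 : (S.L1 : ℝ) = n1) (e2 : (S.L2 : ℝ) = n2) (e3 : (S.R1 : ℝ) = M1 - 8388)
    (e4 : (S.R2 : ℝ) = M2 - 8388) (e5 : (S.T : ℝ) = 0)
    (hn0 : 0 ≤ n1) (hn : n1 < n2) (hm0 : 0 ≤ M2 - 8388) (hm : M2 ≤ M1)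
    (c1 : (512 + n1) * (M1 - 8388) ≤ 512 * 2 ^ 24)
    (c2 : (512 + n2) * (M2 - 8388) + (M1 - M2) * (n2 - n1) ≤ 512 * 2 ^ 24)
    {l : ℝ} (hl0 : 0 < l) (hl1 : n1 / 1024 ≤ l) (hl2 : l ≤ n2 / 1024)
    (hlev : LEV0 l (chord n1 n2 M1 M2 l) (40 / 1024))
    (hred : ∀ f ∈ FClass l, maj l f (BB l) = 1 →
      ∃ (a : ℝ) (η ω : ℂ), 0 ≤ a ∧ a ≤ 1 ∧ ‖η‖ = 1 ∧ ‖ω‖ = 1 ∧
        (1 < maj l (GG l a η) (BB l) ∨ ∀ z : ℂ, ‖z‖ < 1 → f z = GG l a η (ω * z))) :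
    chord n1 n2 M1 M2 l - 1 / 2000 ≤ BB l := by
  have hrad : S.rad l = chord n1 n2 (M1 - 8388) (M2 - 8388) l := by
    unfold NSlice.rad chord
    rw [e1, e2, e3, e4]
  have hc := chord_le (l := l) hn0 hn hm0 (by linarith : M2 - 8388 ≤ M1 - 8388) c1
    (by linarith) hl1 hl2
  have hlt := NSlice.rad_lt hok (l := l) (by rw [e1]; exact hl1) (by rw [e2]; exact hl2)
  have key : S.rad l ≤ BB l := by
    refine lower_of_bound (R' := chord n1 n2 M1 M2 l) (s2 := 40 / 1024) hl0 hlt.1 (by norm_num)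
      (by rw [hrad]; exact hc.1) ?_ (by rw [hrad]; exact hc.2) ?_ hlev hred
    · rw [hrad, chord_sub]
      norm_num
    · intro e he hi a ha0 ha1 r hr0 hr
      have := NSlice.bound hok h1 h2 hl0 (by rw [e1]; exact hl1) (by rw [e2]; exact hl2) e he hi
        a ha0 (by linarith) r hr0 hr
      rw [e5, zero_div] at this
      exact this
  rw [hrad, chord_sub] at key
  norm_num at key ⊢
  linarith

end Pool.Agent.BVD
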