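import Pool.Agent.Lib.BMM.Fin

/-!
# A polynomial close to the piecewise affine table

`pp l = 0.70685 - 0.3526 l + 0.062 l ^ 3 - 12.3 l ^ 8` satisfies
`RR l - 3 / 10000 ≤ pp l ≤ RR l - 1 / 5000` for `0 < l ≤ 3672 / 10000`. On a piece `[u, v]` on which
`RR` is affine, `l ^ 3` and `l ^ 8` are bounded by their chords and by their tangents at the midpoint,
so that only the two end points are checked.
-/

set_option autoImplicit false

namespace Pool.Agent.BVD

open Pool.Agent.BMM

/-- the polynomial -/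
noncomputable def pp (l : ℝ) : ℝ :=
  70685 / 100000 - 3526 / 10000 * l + 62 / 1000 * l ^ 3 - 123 / 10 * l ^ 8

namespace PolyAux

lemma tan3 {x m : ℝ} (hx : 0 ≤ x) (hm : 0 ≤ m) : m ^ 3 + 3 * m ^ 2 * (x - m) ≤ x ^ 3 := by
  have h : x ^ 3 - (m ^ 3 + 3 * m ^ 2 * (x - m)) = (x - m) ^ 2 * (x + 2 * m) := by ring
  have h2 : 0 ≤ (x - m) ^ 2 * (x + 2 * m) := by positivity
  linarith

lemma tan8 {x m : ℝ} (hx : 0 ≤ x) (hm : 0 ≤ m) : m ^ 8 + 8 * m ^ 7 * (x - m) ≤ x ^ 8 := by
  have h : x ^ 8 - (m ^ 8 + 8 * m ^ 7 * (x - m)) = (x - m) ^ 2 *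
      (x ^ 6 + 2 * x ^ 5 * m + 3 * x ^ 4 * m ^ 2 + 4 * x ^ 3 * m ^ 3 + 5 * x ^ 2 * m ^ 4 +
        6 * x * m ^ 5 + 7 * m ^ 6) := by ring
  have h2 : 0 ≤ (x - m) ^ 2 *
      (x ^ 6 + 2 * x ^ 5 * m + 3 * x ^ 4 * m ^ 2 + 4 * x ^ 3 * m ^ 3 + 5 * x ^ 2 * m ^ 4 +
        6 * x * m ^ 5 + 7 * m ^ 6) := by positivity
  linarith

lemma cho {u v t : ℝ} (n : ℕ) (hu : 0 ≤ u) (hv : 0 ≤ v) (h0 : 0 ≤ t) (h1 : t ≤ 1) :
    ((1 - t) * u + t * v) ^ n ≤ (1 - t) * u ^ n + t * v ^ n := by
  have h := (convexOn_pow n).2 (Set.mem_Ici.2 hu) (Set.mem_Ici.2 hv) (by linarith : (0 : ℝ) ≤ 1 - t)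
    h0 (by ring)
  simpa [smul_eq_mul] using h

/-- One piece. -/
lemma piece (u v m a b : ℝ) (hu : 0 ≤ u) (huv : u < v) (hm : 0 ≤ m)
    (h1 : 70685 / 100000 - 3526 / 10000 * u + 62 / 1000 * u ^ 3
      - 123 / 10 * (m ^ 8 + 8 * m ^ 7 * (u - m)) ≤ a + b * u - 1 / 5000)
    (h2 : 70685 / 100000 - 3526 / 10000 * v + 62 / 1000 * v ^ 3
      - 123 / 10 * (m ^ 8 + 8 * m ^ 7 * (v - m)) ≤ a + b * v - 1 / 5000)
    (h3 : a + b * u - 3 / 10000 ≤ 70685 / 100000 - 3526 / 10000 * u
      + 62 / 1000 * (m ^ 3 + 3 * m ^ 2 * (u - m)) - 123 / 10 * u ^ 8)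
    (h4 : a + b * v - 3 / 10000 ≤ 70685 / 100000 - 3526 / 10000 * v
      + 62 / 1000 * (m ^ 3 + 3 * m ^ 2 * (v - m)) - 123 / 10 * v ^ 8)
    {l : ℝ} (hl : u ≤ l) (hl2 : l ≤ v) :
    a + b * l - 3 / 10000 ≤ pp l ∧ pp l ≤ a + b * l - 1 / 5000 := by
  obtain ⟨t, ht0, ht1, rfl⟩ : ∃ t : ℝ, 0 ≤ t ∧ t ≤ 1 ∧ l = (1 - t) * u + t * v := by
    refine ⟨(l - u) / (v - u), div_nonneg (by linarith) (by linarith), ?_, ?_⟩
    · rw [div_le_one (by linarith)]; linarith
    · have : v - u ≠ 0 := by linarith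
      field_simp
      ring
  have hl0 : 0 ≤ (1 - t) * u + t * v := by
    have := mul_nonneg (by linarith : (0 : ℝ) ≤ 1 - t) hu
    have := mul_nonneg ht0 (by linarith : (0 : ℝ) ≤ v)
    linarith
  have c3 := cho 3 hu (by linarith : (0 : ℝ) ≤ v) ht0 ht1
  have c8 := cho 8 hu (by linarith : (0 : ℝ) ≤ v) ht0 ht1
  have t3 := tan3 hl0 hm
  have t8 := tan8 hl0 hm
  have k1 := mul_le_mul_of_nonneg_left h1 (by linarith : (0 : ℝ) ≤ 1 - t)
  have k2 := mul_le_mul_of_nonneg_left h2 ht0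
  have k3 := mul_le_mul_of_nonneg_left h3 (by linarith : (0 : ℝ) ≤ 1 - t)
  have k4 := mul_le_mul_of_nonneg_left h4 ht0
  unfold pp
  constructor
  · linarith
  · linarith

lemma pc_0_0 {l : ℝ} (h1 : (0) ≤ l) (h2 : l ≤ (13 / 512)) :
    (11863619 / 16777216) + (-(75291 / 212992)) * l - 3 / 10000 ≤ pp l ∧ pp l ≤ (11863619 / 16777216) + (-(75291 / 212992)) * l - 1 / 5000 :=
  piece (0) (13 / 512) (13 / 1024) (11863619 / 16777216) (-(75291 / 212992)) (by norm_num) (by norm_num) (by norm_num) (by norm_num) (by norm_num)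
    (by norm_num) (by norm_num) h1 h2

lemma sl_0 {l : ℝ} (h1 : 0 / 1024 ≤ l) (h2 : l ≤ 26 / 1024) :
    chord 0 26 11863619 11713037 l - 3 / 10000 ≤ pp l ∧ pp l ≤ chord 0 26 11863619 11713037 l - 1 / 5000 := by
  have e : chord 0 26 11863619 11713037 l = (11863619 / 16777216) + (-(75291 / 212992)) * l := by
    unfold chord; ring
  rw [e]
  exact pc_0_0 (by linarith) (by linarith)

lemma pc_1_0 {l : ℝ} (h1 : (13 / 512) ≤ l) (h2 : l ≤ (51 / 1024)) :
    (59317313 / 83886080) + (-(113 / 320)) * l - 3 / 10000 ≤ pp l ∧ pp l ≤ (59317313 / 83886080) + (-(113 / 320)) * l - 1 / 5000 :=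
  piece (13 / 512) (51 / 1024) (77 / 2048) (59317313 / 83886080) (-(113 / 320)) (by norm_num) (by norm_num) (by norm_num) (by norm_num) (by norm_num)
    (by norm_num) (by norm_num) h1 h2

lemma sl_1 {l : ℝ} (h1 : 26 / 1024 ≤ l) (h2 : l ≤ 51 / 1024) :
    chord 26 51 11713037 11568397 l - 3 / 10000 ≤ pp l ∧ pp l ≤ chord 26 51 11713037 11568397 l - 1 / 5000 := by
  have e : chord 26 51 11713037 11568397 l = (59317313 / 83886080) + (-(113 / 320)) * l := by
    unfold chord; ring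
  rw [e]
  exact pc_1_0 (by linarith) (by linarith)

lemma pc_2_0 {l : ℝ} (h1 : (51 / 1024) ≤ l) (h2 : l ≤ (77 / 1024)) :
    (154216711 / 218103808) + (-(37525 / 106496)) * l - 3 / 10000 ≤ pp l ∧ pp l ≤ (154216711 / 218103808) + (-(37525 / 106496)) * l - 1 / 5000 :=
  piece (51 / 1024) (77 / 1024) (1 / 16) (154216711 / 218103808) (-(37525 / 106496)) (by norm_num) (by norm_num) (by norm_num) (by norm_num) (by norm_num)
    (by norm_num) (by norm_num) h1 h2

lemma sl_2 {l : ℝ} (h1 : 51 / 1024 ≤ l) (h2 : l ≤ 77 / 1024) :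
    chord 51 77 11568397 11418297 l - 3 / 10000 ≤ pp l ∧ pp l ≤ chord 51 77 11568397 11418297 l - 1 / 5000 := by
  have e : chord 51 77 11568397 11418297 l = (154216711 / 218103808) + (-(37525 / 106496)) * l := by
    unfold chord; ring
  rw [e]
  exact pc_2_0 (by linarith) (by linarith)

lemma pc_3_0 {l : ℝ} (h1 : (77 / 1024) ≤ l) (h2 : l ≤ (51 / 512)) :
    (59307083 / 83886080) + (-(14387 / 40960)) * l - 3 / 10000 ≤ pp l ∧ pp l ≤ (59307083 / 83886080) + (-(14387 / 40960)) * l - 1 / 5000 :=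
  piece (77 / 1024) (51 / 512) (179 / 2048) (59307083 / 83886080) (-(14387 / 40960)) (by norm_num) (by norm_num) (by norm_num) (by norm_num) (by norm_num)
    (by norm_num) (by norm_num) h1 h2

lemma sl_3 {l : ℝ} (h1 : 77 / 1024 ≤ l) (h2 : l ≤ 102 / 1024) :
    chord 77 102 11418297 11274427 l - 3 / 10000 ≤ pp l ∧ pp l ≤ chord 77 102 11418297 11274427 l - 1 / 5000 := by
  have e : chord 77 102 11418297 11274427 l = (59307083 / 83886080) + (-(14387 / 40960)) * l := by
    unfold chord; ring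
  rw [e]
  exact pc_3_0 (by linarith) (by linarith)

lemma pc_4_0 {l : ℝ} (h1 : (51 / 512) ≤ l) (h2 : l ≤ (1 / 8)) :
    (77084321 / 109051904) + (-(149041 / 425984)) * l - 3 / 10000 ≤ pp l ∧ pp l ≤ (77084321 / 109051904) + (-(149041 / 425984)) * l - 1 / 5000 :=
  piece (51 / 512) (1 / 8) (115 / 1024) (77084321 / 109051904) (-(149041 / 425984)) (by norm_num) (by norm_num) (by norm_num) (by norm_num) (by norm_num)
    (by norm_num) (by norm_num) h1 h2

lemma sl_4 {l : ℝ} (h1 : 102 / 1024 ≤ l) (h2 : l ≤ 128 / 1024) :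
    chord 102 128 11274427 11125386 l - 3 / 10000 ≤ pp l ∧ pp l ≤ chord 102 128 11274427 11125386 l - 1 / 5000 := by
  have e : chord 102 128 11274427 11125386 l = (77084321 / 109051904) + (-(149041 / 425984)) * l := by
    unfold chord; ring
  rw [e]
  exact pc_4_0 (by linarith) (by linarith)

lemma pc_5_0 {l : ℝ} (h1 : (1 / 8) ≤ l) (h2 : l ≤ (77 / 512)) :
    (5928005 / 8388608) + (-(1427 / 4096)) * l - 3 / 10000 ≤ pp l ∧ pp l ≤ (5928005 / 8388608) + (-(1427 / 4096)) * l - 1 / 5000 :=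
  piece (1 / 8) (77 / 512) (141 / 1024) (5928005 / 8388608) (-(1427 / 4096)) (by norm_num) (by norm_num) (by norm_num) (by norm_num) (by norm_num)
    (by norm_num) (by norm_num) h1 h2

lemma sl_5 {l : ℝ} (h1 : 128 / 1024 ≤ l) (h2 : l ≤ 154 / 1024) :
    chord 128 154 11125386 10976978 l - 3 / 10000 ≤ pp l ∧ pp l ≤ chord 128 154 11125386 10976978 l - 1 / 5000 := by
  have e : chord 128 154 11125386 10976978 l = (5928005 / 8388608) + (-(1427 / 4096)) * l := by
    unfold chord; ring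
  rw [e]
  exact pc_5_0 (by linarith) (by linarith)

lemma pc_6_0 {l : ℝ} (h1 : (77 / 512) ≤ l) (h2 : l ≤ (179 / 1024)) :
    (29631709 / 41943040) + (-(1777 / 5120)) * l - 3 / 10000 ≤ pp l ∧ pp l ≤ (29631709 / 41943040) + (-(1777 / 5120)) * l - 1 / 5000 :=
  piece (77 / 512) (179 / 1024) (333 / 2048) (29631709 / 41943040) (-(1777 / 5120)) (by norm_num) (by norm_num) (by norm_num) (by norm_num) (by norm_num)
    (by norm_num) (by norm_num) h1 h2

lemma sl_6 {l : ℝ} (h1 : 154 / 1024 ≤ l) (h2 : l ≤ 179 / 1024) :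
    chord 154 179 10976978 10834818 l - 3 / 10000 ≤ pp l ∧ pp l ≤ chord 154 179 10976978 10834818 l - 1 / 5000 := by
  have e : chord 154 179 10976978 10834818 l = (29631709 / 41943040) + (-(1777 / 5120)) * l := by
    unfold chord; ring
  rw [e]
  exact pc_6_0 (by linarith) (by linarith)

lemma pc_7_0 {l : ℝ} (h1 : (179 / 1024) ≤ l) (h2 : l ≤ (205 / 1024)) :
    (308101145 / 436207616) + (-(147463 / 425984)) * l - 3 / 10000 ≤ pp l ∧ pp l ≤ (308101145 / 436207616) + (-(147463 / 425984)) * l - 1 / 5000 :=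
  piece (179 / 1024) (205 / 1024) (3 / 16) (308101145 / 436207616) (-(147463 / 425984)) (by norm_num) (by norm_num) (by norm_num) (by norm_num) (by norm_num)
    (by norm_num) (by norm_num) h1 h2

lemma sl_7 {l : ℝ} (h1 : 179 / 1024 ≤ l) (h2 : l ≤ 205 / 1024) :
    chord 179 205 10834818 10687355 l - 3 / 10000 ≤ pp l ∧ pp l ≤ chord 179 205 10834818 10687355 l - 1 / 5000 := by
  have e : chord 179 205 10834818 10687355 l = (308101145 / 436207616) + (-(147463 / 425984)) * l := by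
    unfold chord; ring
  rw [e]
  exact pc_7_0 (by linarith) (by linarith)

lemma pc_8_0 {l : ℝ} (h1 : (205 / 1024) ≤ l) (h2 : l ≤ (115 / 512)) :
    (59247541 / 83886080) + (-(70863 / 204800)) * l - 3 / 10000 ≤ pp l ∧ pp l ≤ (59247541 / 83886080) + (-(70863 / 204800)) * l - 1 / 5000 :=
  piece (205 / 1024) (115 / 512) (435 / 2048) (59247541 / 83886080) (-(70863 / 204800)) (by norm_num) (by norm_num) (by norm_num) (by norm_num) (by norm_num)
    (by norm_num) (by norm_num) h1 h2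

lemma sl_8 {l : ℝ} (h1 : 205 / 1024 ≤ l) (h2 : l ≤ 230 / 1024) :
    chord 205 230 10687355 10545629 l - 3 / 10000 ≤ pp l ∧ pp l ≤ chord 205 230 10687355 10545629 l - 1 / 5000 := by
  have e : chord 205 230 10687355 10545629 l = (59247541 / 83886080) + (-(70863 / 204800)) * l := by
    unfold chord; ring
  rw [e]
  exact pc_8_0 (by linarith) (by linarith)

lemma pc_9_0 {l : ℝ} (h1 : (115 / 512) ≤ l) (h2 : l ≤ (1 / 4)) :
    (154089717 / 218103808) + (-(36949 / 106496)) * l - 3 / 10000 ≤ pp l ∧ pp l ≤ (154089717 / 218103808) + (-(36949 / 106496)) * l - 1 / 5000 :=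
  piece (115 / 512) (1 / 4) (243 / 1024) (154089717 / 218103808) (-(36949 / 106496)) (by norm_num) (by norm_num) (by norm_num) (by norm_num) (by norm_num)
    (by norm_num) (by norm_num) h1 h2

lemma sl_9 {l : ℝ} (h1 : 230 / 1024 ≤ l) (h2 : l ≤ 256 / 1024) :
    chord 230 256 10545629 10397833 l - 3 / 10000 ≤ pp l ∧ pp l ≤ chord 230 256 10545629 10397833 l - 1 / 5000 := by
  have e : chord 230 256 10545629 10397833 l = (154089717 / 218103808) + (-(36949 / 106496)) * l := by
    unfold chord; ring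
  rw [e]
  exact pc_9_0 (by linarith) (by linarith)

lemma pc_10_0 {l : ℝ} (h1 : (1 / 4) ≤ l) (h2 : l ≤ (141 / 512)) :
    (154219381 / 218103808) + (-(148809 / 425984)) * l - 3 / 10000 ≤ pp l ∧ pp l ≤ (154219381 / 218103808) + (-(148809 / 425984)) * l - 1 / 5000 :=
  piece (1 / 4) (141 / 512) (269 / 1024) (154219381 / 218103808) (-(148809 / 425984)) (by norm_num) (by norm_num) (by norm_num) (by norm_num) (by norm_num)
    (by norm_num) (by norm_num) h1 h2

lemma sl_10 {l : ℝ} (h1 : 256 / 1024 ≤ l) (h2 : l ≤ 282 / 1024) :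
    chord 256 282 10397833 10249024 l - 3 / 10000 ≤ pp l ∧ pp l ≤ chord 256 282 10397833 10249024 l - 1 / 5000 := by
  have e : chord 256 282 10397833 10249024 l = (154219381 / 218103808) + (-(148809 / 425984)) * l := by
    unfold chord; ring
  rw [e]
  exact pc_10_0 (by linarith) (by linarith)

lemma pc_11_0 {l : ℝ} (h1 : (141 / 512) ≤ l) (h2 : l ≤ (149 / 512)) :
    (148596857 / 209715200) + (-(145277 / 409600)) * l - 3 / 10000 ≤ pp l ∧ pp l ≤ (148596857 / 209715200) + (-(145277 / 409600)) * l - 1 / 5000 :=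
  piece (141 / 512) (149 / 512) (145 / 512) (148596857 / 209715200) (-(145277 / 409600)) (by norm_num) (by norm_num) (by norm_num) (by norm_num) (by norm_num)
    (by norm_num) (by norm_num) h1 h2

lemma pc_11_1 {l : ℝ} (h1 : (149 / 512) ≤ l) (h2 : l ≤ (307 / 1024)) :
    (148596857 / 209715200) + (-(145277 / 409600)) * l - 3 / 10000 ≤ pp l ∧ pp l ≤ (148596857 / 209715200) + (-(145277 / 409600)) * l - 1 / 5000 :=
  piece (149 / 512) (307 / 1024) (605 / 2048) (148596857 / 209715200) (-(145277 / 409600)) (by norm_num) (by norm_num) (by norm_num) (by norm_num) (by norm_num)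
    (by norm_num) (by norm_num) h1 h2

lemma sl_11 {l : ℝ} (h1 : 282 / 1024 ≤ l) (h2 : l ≤ 307 / 1024) :
    chord 282 307 10249024 10103747 l - 3 / 10000 ≤ pp l ∧ pp l ≤ chord 282 307 10249024 10103747 l - 1 / 5000 := by
  have e : chord 282 307 10249024 10103747 l = (148596857 / 209715200) + (-(145277 / 409600)) * l := by
    unfold chord; ring
  rw [e]
  rcases le_total l (149 / 512) with g | g
  · exact pc_11_0 (by linarith) g
  exact pc_11_1 (by linarith) (by linarith)

lemma pc_12_0 {l : ℝ} (h1 : (307 / 1024) ≤ l) (h2 : l ≤ (315 / 1024)) :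
    (190740527 / 268435456) + (-(94725 / 262144)) * l - 3 / 10000 ≤ pp l ∧ pp l ≤ (190740527 / 268435456) + (-(94725 / 262144)) * l - 1 / 5000 :=
  piece (307 / 1024) (315 / 1024) (311 / 1024) (190740527 / 268435456) (-(94725 / 262144)) (by norm_num) (by norm_num) (by norm_num) (by norm_num) (by norm_num)
    (by norm_num) (by norm_num) h1 h2

lemma pc_12_1 {l : ℝ} (h1 : (315 / 1024) ≤ l) (h2 : l ≤ (319 / 1024)) :
    (190740527 / 268435456) + (-(94725 / 262144)) * l - 3 / 10000 ≤ pp l ∧ pp l ≤ (190740527 / 268435456) + (-(94725 / 262144)) * l - 1 / 5000 :=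
  piece (315 / 1024) (319 / 1024) (317 / 1024) (190740527 / 268435456) (-(94725 / 262144)) (by norm_num) (by norm_num) (by norm_num) (by norm_num) (by norm_num)
    (by norm_num) (by norm_num) h1 h2

lemma pc_12_2 {l : ℝ} (h1 : (319 / 1024) ≤ l) (h2 : l ≤ (323 / 1024)) :
    (190740527 / 268435456) + (-(94725 / 262144)) * l - 3 / 10000 ≤ pp l ∧ pp l ≤ (190740527 / 268435456) + (-(94725 / 262144)) * l - 1 / 5000 :=
  piece (319 / 1024) (323 / 1024) (321 / 1024) (190740527 / 268435456) (-(94725 / 262144)) (by norm_num) (by norm_num) (by norm_num) (by norm_num) (by norm_num)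
    (by norm_num) (by norm_num) h1 h2

lemma sl_12 {l : ℝ} (h1 : 307 / 1024 ≤ l) (h2 : l ≤ 323 / 1024) :
    chord 307 323 10103747 10009022 l - 3 / 10000 ≤ pp l ∧ pp l ≤ chord 307 323 10103747 10009022 l - 1 / 5000 := by
  have e : chord 307 323 10103747 10009022 l = (190740527 / 268435456) + (-(94725 / 262144)) * l := by
    unfold chord; ring
  rw [e]
  rcases le_total l (315 / 1024) with g | g
  · exact pc_12_0 (by linarith) g
  rcases le_total l (319 / 1024) with g | g
  · exact pc_12_1 (by linarith) g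
  exact pc_12_2 (by linarith) (by linarith)

lemma pc_13_0 {l : ℝ} (h1 : (323 / 1024) ≤ l) (h2 : l ≤ (331 / 1024)) :
    (35860769 / 50331648) + (-(18061 / 49152)) * l - 3 / 10000 ≤ pp l ∧ pp l ≤ (35860769 / 50331648) + (-(18061 / 49152)) * l - 1 / 5000 :=
  piece (323 / 1024) (331 / 1024) (327 / 1024) (35860769 / 50331648) (-(18061 / 49152)) (by norm_num) (by norm_num) (by norm_num) (by norm_num) (by norm_num)
    (by norm_num) (by norm_num) h1 h2

lemma pc_13_1 {l : ℝ} (h1 : (331 / 1024) ≤ l) (h2 : l ≤ (169 / 512)) :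
    (35860769 / 50331648) + (-(18061 / 49152)) * l - 3 / 10000 ≤ pp l ∧ pp l ≤ (35860769 / 50331648) + (-(18061 / 49152)) * l - 1 / 5000 :=
  piece (331 / 1024) (169 / 512) (669 / 2048) (35860769 / 50331648) (-(18061 / 49152)) (by norm_num) (by norm_num) (by norm_num) (by norm_num) (by norm_num)
    (by norm_num) (by norm_num) h1 h2

lemma sl_13 {l : ℝ} (h1 : 323 / 1024 ≤ l) (h2 : l ≤ 338 / 1024) :
    chord 323 338 10009022 9918717 l - 3 / 10000 ≤ pp l ∧ pp l ≤ chord 323 338 10009022 9918717 l - 1 / 5000 := by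
  have e : chord 323 338 10009022 9918717 l = (35860769 / 50331648) + (-(18061 / 49152)) * l := by
    unfold chord; ring
  rw [e]
  rcases le_total l (331 / 1024) with g | g
  · exact pc_13_0 (by linarith) g
  exact pc_13_1 (by linarith) (by linarith)

lemma pc_14_0 {l : ℝ} (h1 : (169 / 512) ≤ l) (h2 : l ≤ (173 / 512)) :
    (180065359 / 251658240) + (-(46279 / 122880)) * l - 3 / 10000 ≤ pp l ∧ pp l ≤ (180065359 / 251658240) + (-(46279 / 122880)) * l - 1 / 5000 :=
  piece (169 / 512) (173 / 512) (171 / 512) (180065359 / 251658240) (-(46279 / 122880)) (by norm_num) (by norm_num) (by norm_num) (by norm_num) (by norm_num)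
    (by norm_num) (by norm_num) h1 h2

lemma pc_14_1 {l : ℝ} (h1 : (173 / 512) ≤ l) (h2 : l ≤ (353 / 1024)) :
    (180065359 / 251658240) + (-(46279 / 122880)) * l - 3 / 10000 ≤ pp l ∧ pp l ≤ (180065359 / 251658240) + (-(46279 / 122880)) * l - 1 / 5000 :=
  piece (173 / 512) (353 / 1024) (699 / 2048) (180065359 / 251658240) (-(46279 / 122880)) (by norm_num) (by norm_num) (by norm_num) (by norm_num) (by norm_num)
    (by norm_num) (by norm_num) h1 h2

lemma sl_14 {l : ℝ} (h1 : 338 / 1024 ≤ l) (h2 : l ≤ 353 / 1024) :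
    chord 338 353 9918717 9826159 l - 3 / 10000 ≤ pp l ∧ pp l ≤ chord 338 353 9918717 9826159 l - 1 / 5000 := by
  have e : chord 338 353 9918717 9826159 l = (180065359 / 251658240) + (-(46279 / 122880)) * l := by
    unfold chord; ring
  rw [e]
  rcases le_total l (173 / 512) with g | g
  · exact pc_14_0 (by linarith) g
  exact pc_14_1 (by linarith) (by linarith)

lemma pc_15_0 {l : ℝ} (h1 : (353 / 1024) ≤ l) (h2 : l ≤ (361 / 1024)) :
    (193992319 / 268435456) + (-(104175 / 262144)) * l - 3 / 10000 ≤ pp l ∧ pp l ≤ (193992319 / 268435456) + (-(104175 / 262144)) * l - 1 / 5000 :=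
  piece (353 / 1024) (361 / 1024) (357 / 1024) (193992319 / 268435456) (-(104175 / 262144)) (by norm_num) (by norm_num) (by norm_num) (by norm_num) (by norm_num)
    (by norm_num) (by norm_num) h1 h2

lemma pc_15_1 {l : ℝ} (h1 : (361 / 1024) ≤ l) (h2 : l ≤ (369 / 1024)) :
    (193992319 / 268435456) + (-(104175 / 262144)) * l - 3 / 10000 ≤ pp l ∧ pp l ≤ (193992319 / 268435456) + (-(104175 / 262144)) * l - 1 / 5000 :=
  piece (361 / 1024) (369 / 1024) (365 / 1024) (193992319 / 268435456) (-(104175 / 262144)) (by norm_num) (by norm_num) (by norm_num) (by norm_num) (by norm_num)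
    (by norm_num) (by norm_num) h1 h2

lemma sl_15 {l : ℝ} (h1 : 353 / 1024 ≤ l) (h2 : l ≤ 369 / 1024) :
    chord 353 369 9826159 9721984 l - 3 / 10000 ≤ pp l ∧ pp l ≤ chord 353 369 9826159 9721984 l - 1 / 5000 := by
  have e : chord 353 369 9826159 9721984 l = (193992319 / 268435456) + (-(104175 / 262144)) * l := by
    unfold chord; ring
  rw [e]
  rcases le_total l (361 / 1024) with g | g
  · exact pc_15_0 (by linarith) g
  exact pc_15_1 (by linarith) (by linarith)

lemma pc_16_0 {l : ℝ} (h1 : (369 / 1024) ≤ l) (h2 : l ≤ (47 / 128)) :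
    (42937925 / 58720256) + (-(24149 / 57344)) * l - 3 / 10000 ≤ pp l ∧ pp l ≤ (42937925 / 58720256) + (-(24149 / 57344)) * l - 1 / 5000 :=
  piece (369 / 1024) (47 / 128) (745 / 2048) (42937925 / 58720256) (-(24149 / 57344)) (by norm_num) (by norm_num) (by norm_num) (by norm_num) (by norm_num)
    (by norm_num) (by norm_num) h1 h2

lemma sl_16 {l : ℝ} (h1 : 369 / 1024 ≤ l) (h2 : l ≤ 376 / 1024) :
    chord 369 376 9721984 9673686 l - 3 / 10000 ≤ pp l ∧ pp l ≤ chord 369 376 9721984 9673686 l - 1 / 5000 := by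
  have e : chord 369 376 9721984 9673686 l = (42937925 / 58720256) + (-(24149 / 57344)) * l := by
    unfold chord; ring
  rw [e]
  exact pc_16_0 (by linarith) (by linarith)

lemma pc_17_0 {l : ℝ} (h1 : (47 / 128) ≤ l) (h2 : l ≤ (459 / 1250)) :
    (6882471 / 8388608) + (-(10881 / 16384)) * l - 3 / 10000 ≤ pp l ∧ pp l ≤ (6882471 / 8388608) + (-(10881 / 16384)) * l - 1 / 5000 :=
  piece (47 / 128) (459 / 1250) (58751 / 160000) (6882471 / 8388608) (-(10881 / 16384)) (by norm_num) (by norm_num) (by norm_num) (by norm_num) (by norm_num)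
    (by norm_num) (by norm_num) h1 h2

lemma sl_17 {l : ℝ} (h1 : 376 / 1024 ≤ l) (h2 : l ≤ 3672 / 10000) :
    chord 376 377 9673686 9662805 l - 3 / 10000 ≤ pp l ∧ pp l ≤ chord 376 377 9673686 9662805 l - 1 / 5000 := by
  have e : chord 376 377 9673686 9662805 l = (6882471 / 8388608) + (-(10881 / 16384)) * l := by
    unfold chord; ring
  rw [e]
  exact pc_17_0 (by linarith) (by linarith)

end PolyAux

open PolyAux

theorem poly_RR {l : ℝ} (h0 : 0 < l) (h1 : l ≤ 3672 / 10000) :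
    RR l - 3 / 10000 ≤ pp l ∧ pp l ≤ RR l - 1 / 5000 := by
  rcases le_or_gt l (26 / 1024) with h | g0
  · rw [RR_0 (by linarith) h]
    exact sl_0 (by linarith) h
  rcases le_or_gt l (51 / 1024) with h | g1
  · rw [RR_1 (by linarith) h]
    exact sl_1 (by linarith) h
  rcases le_or_gt l (77 / 1024) with h | g2
  · rw [RR_2 (by linarith) h]
    exact sl_2 (by linarith) h
  rcases le_or_gt l (102 / 1024) with h | g3
  · rw [RR_3 (by linarith) h]
    exact sl_3 (by linarith) h
  rcases le_or_gt l (128 / 1024) with h | g4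
  · rw [RR_4 (by linarith) h]
    exact sl_4 (by linarith) h
  rcases le_or_gt l (154 / 1024) with h | g5
  · rw [RR_5 (by linarith) h]
    exact sl_5 (by linarith) h
  rcases le_or_gt l (179 / 1024) with h | g6
  · rw [RR_6 (by linarith) h]
    exact sl_6 (by linarith) h
  rcases le_or_gt l (205 / 1024) with h | g7
  · rw [RR_7 (by linarith) h]
    exact sl_7 (by linarith) h
  rcases le_or_gt l (230 / 1024) with h | g8
  · rw [RR_8 (by linarith) h]
    exact sl_8 (by linarith) h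
  rcases le_or_gt l (256 / 1024) with h | g9
  · rw [RR_9 (by linarith) h]
    exact sl_9 (by linarith) h
  rcases le_or_gt l (282 / 1024) with h | g10
  · rw [RR_10 (by linarith) h]
    exact sl_10 (by linarith) h
  rcases le_or_gt l (307 / 1024) with h | g11
  · rw [RR_11 (by linarith) h]
    exact sl_11 (by linarith) h
  rcases le_or_gt l (323 / 1024) with h | g12
  · rw [RR_12 (by linarith) h]
    exact sl_12 (by linarith) h
  rcases le_or_gt l (338 / 1024) with h | g13
  · rw [RR_13 (by linarith) h]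
    exact sl_13 (by linarith) h
  rcases le_or_gt l (353 / 1024) with h | g14
  · rw [RR_14 (by linarith) h]
    exact sl_14 (by linarith) h
  rcases le_or_gt l (369 / 1024) with h | g15
  · rw [RR_15 (by linarith) h]
    exact sl_15 (by linarith) h
  rcases le_or_gt l (376 / 1024) with h | g16
  · rw [RR_16 (by linarith) h]
    exact sl_16 (by linarith) h
  rw [RR_17 g16 (by linarith)]
  exact sl_17 (by linarith) h1

/-- The bounds of the best constant in terms of the polynomial. -/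
theorem abs_of_bounds {l B : ℝ} (h0 : 0 < l) (h1 : l ≤ 3672 / 10000) (hlo : RR l - 1 / 2000 ≤ B)
    (hup : B ≤ RR l) :
    |B - (70685 / 100000 - 3526 / 10000 * l + 62 / 1000 * l ^ 3 - 123 / 10 * l ^ 8)| ≤
      3 / 10000 := by
  obtain ⟨h2, h3⟩ := poly_RR h0 h1
  change |B - pp l| ≤ 3 / 10000
  rw [abs_le]
  constructor <;> linarith

end Pool.Agent.BVD
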