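import Pool.Agent.Lib.BVD.Low
import Pool.Agent.Lib.BVD.Poly
import Pool.Agent.Lib.BFIN.FarAll
import Pool.Agent.Lib.BFIN.NearAll

/-!
# The value of the best constant
-/

set_option autoImplicit false

open Pool.Agent.P187f6b Pool.Agent.P187w Pool.Agent.BMM

namespace Pool.Agent.BVD

/-- The lower bound for the best constant. -/
theorem lower {l : ℝ} (h0 : 0 < l) (h1 : l ≤ 3672 / 10000) : RR l - 1 / 2000 ≤ BB l :=
  lower_of h0 h1 (BFIN.far_all l h0 (by linarith)) (BFIN.near_all l h0 (by linarith))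

/-- The best constant within `3 / 10000`. -/
theorem value {l : ℝ} (h0 : 0 < l) (h1 : l ≤ 3672 / 10000) :
    |BB l - (70685 / 100000 - 3526 / 10000 * l + 62 / 1000 * l ^ 3 - 123 / 10 * l ^ 8)| ≤
      3 / 10000 :=
  abs_of_bounds h0 h1 (lower h0 h1) (BB_le_RR h0 (by linarith))

end Pool.Agent.BVD
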